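import Pool.Agent.Helper874.Pent.Geom

set_option autoImplicit false

namespace Pool.Agent.Helper874.Pent

/-- A label together with approximate coordinates (scaled by `10^6`). -/
abbrev Pt : Type := Fin 48 × ℤ × ℤ × ℤ

/-- Integer functionals. -/
abbrev Z3 : Type := ℤ × ℤ × ℤ

/-- The approximate coordinates in `p` are correct up to `1`. -/
def Near (P : Fin 48 → V3) (p : Pt) : Prop :=
  |10 ^ 6 * P p.1 0 - p.2.1| ≤ 1 ∧ |10 ^ 6 * P p.1 1 - p.2.2.1| ≤ 1 ∧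
    |10 ^ 6 * P p.1 2 - p.2.2.2| ≤ 1

def dotZ (l : Z3) (p : Pt) : ℤ := l.1 * p.2.1 + l.2.1 * p.2.2.1 + l.2.2 * p.2.2.2

def sepOK (l : Z3) (A B : List Pt) : Bool :=
  A.all fun u => B.all fun v => (u.1 == v.1) ||
    decide (2 * (|l.1| + |l.2.1| + |l.2.2|) < dotZ l v - dotZ l u)

theorem abs_mul_le {a x y : ℝ} (h : |x - y| ≤ 1) : |a * x - a * y| ≤ |a| := by
  rw [← mul_sub, abs_mul]
  calc |a| * |x - y| ≤ |a| * 1 := mul_le_mul_of_nonneg_left h (abs_nonneg _)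
    _ = |a| := mul_one _

theorem near_dot {P : Fin 48 → V3} {p : Pt} (hp : Near P p) (l : Z3) :
    |10 ^ 6 * dotf l.1 l.2.1 l.2.2 (P p.1) - (dotZ l p : ℝ)| ≤
      ((|l.1| + |l.2.1| + |l.2.2| : ℤ) : ℝ) := by
  obtain ⟨h0, h1, h2⟩ := hp
  rw [dotf_apply, dotZ]
  push_cast
  have e0 := abs_mul_le (a := (l.1 : ℝ)) h0
  have e1 := abs_mul_le (a := (l.2.1 : ℝ)) h1
  have e2 := abs_mul_le (a := (l.2.2 : ℝ)) h2
  calc _ = |((l.1 : ℝ) * (10 ^ 6 * P p.1 0) - l.1 * p.2.1) +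
        (((l.2.1 : ℝ) * (10 ^ 6 * P p.1 1) - l.2.1 * p.2.2.1) +
        ((l.2.2 : ℝ) * (10 ^ 6 * P p.1 2) - l.2.2 * p.2.2.2))| := by
          congr 1
          ring
    _ ≤ _ := (abs_add_le _ _).trans (add_le_add_right (abs_add_le _ _) _)
    _ ≤ |(l.1 : ℝ)| + (|(l.2.1 : ℝ)| + |(l.2.2 : ℝ)|) :=
        add_le_add e0 (add_le_add e1 e2)
    _ = _ := by ring

theorem sepOK_sound {P : Fin 48 → V3} {l : Z3} {A B : List Pt} (h : sepOK l A B = true)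
    (hA : ∀ p ∈ A, Near P p) (hB : ∀ p ∈ B, Near P p) :
    ∀ u ∈ A, ∀ v ∈ B, u.1 = v.1 ∨
      dotf l.1 l.2.1 l.2.2 (P u.1) < dotf l.1 l.2.1 l.2.2 (P v.1) := by
  intro u hu v hv
  unfold sepOK at h
  rw [List.all_eq_true] at h
  have h1 := h u hu
  rw [List.all_eq_true] at h1
  have h2 := h1 v hv
  rw [Bool.or_eq_true, beq_iff_eq, decide_eq_true_iff] at h2
  rcases h2 with h2 | h2
  · exact Or.inl h2
  · right
    have nu := abs_le.1 (near_dot (hA u hu) l)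
    have nv := abs_le.1 (near_dot (hB v hv) l)
    have h3 : (2 : ℝ) * ((|l.1| + |l.2.1| + |l.2.2| : ℤ) : ℝ) < (dotZ l v : ℝ) - (dotZ l u : ℝ) := by
      exact_mod_cast h2
    have : (10 : ℝ) ^ 6 * dotf l.1 l.2.1 l.2.2 (P u.1) <
        10 ^ 6 * dotf l.1 l.2.1 l.2.2 (P v.1) := by linarith [nu.1, nu.2, nv.1, nv.2]
    exact lt_of_mul_lt_mul_left this (by norm_num)

theorem sep_meet {P : Fin 48 → V3} {l : Z3} {A B : List Pt} (h : sepOK l A B = true)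
    (hA : ∀ p ∈ A, Near P p) (hB : ∀ p ∈ B, Near P p) {x : V3}
    (hx : x ∈ convexHull ℝ (P '' {v | v ∈ A.map Prod.fst}))
    (hx' : x ∈ convexHull ℝ (P '' {v | v ∈ B.map Prod.fst})) :
    ∃ v, v ∈ A.map Prod.fst ∧ v ∈ B.map Prod.fst ∧ x = P v := by
  refine hull_inter_of_sep P (dotf l.1 l.2.1 l.2.2) _ _ ?_ hx hx'
  intro u hu v hv
  obtain ⟨u', hu', rfl⟩ := List.mem_map.1 hu
  obtain ⟨v', hv', rfl⟩ := List.mem_map.1 hv
  exact sepOK_sound h hA hB u' hu' v' hv'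

/-! Cross products and determinants of approximate points. -/

def crx (p q r : Pt) : ℤ :=
  (q.2.2.1 - p.2.2.1) * (r.2.2.2 - p.2.2.2) - (q.2.2.2 - p.2.2.2) * (r.2.2.1 - p.2.2.1)
def cry (p q r : Pt) : ℤ :=
  (q.2.2.2 - p.2.2.2) * (r.2.1 - p.2.1) - (q.2.1 - p.2.1) * (r.2.2.2 - p.2.2.2)
def crz (p q r : Pt) : ℤ :=
  (q.2.1 - p.2.1) * (r.2.2.1 - p.2.2.1) - (q.2.2.1 - p.2.2.1) * (r.2.1 - p.2.1)

def erx (p q r : Pt) : ℤ :=
  2 * (|q.2.2.1 - p.2.2.1| + |r.2.2.2 - p.2.2.2| + |q.2.2.2 - p.2.2.2| + |r.2.2.1 - p.2.2.1|) + 8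
def ery (p q r : Pt) : ℤ :=
  2 * (|q.2.2.2 - p.2.2.2| + |r.2.1 - p.2.1| + |q.2.1 - p.2.1| + |r.2.2.2 - p.2.2.2|) + 8
def erz (p q r : Pt) : ℤ :=
  2 * (|q.2.1 - p.2.1| + |r.2.2.1 - p.2.2.1| + |q.2.2.1 - p.2.2.1| + |r.2.1 - p.2.1|) + 8

theorem prod_err {a b a' b' : ℝ} (ha : |a' - a| ≤ 2) (hb : |b' - b| ≤ 2) :
    |a' * b' - a * b| ≤ 2 * |a| + 2 * |b| + 4 := by
  have e : a' * b' - a * b = a * (b' - b) + (a' - a) * b + (a' - a) * (b' - b) := by ring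
  rw [e]
  have h1 : |a * (b' - b)| ≤ |a| * 2 := by
    rw [abs_mul]; exact mul_le_mul_of_nonneg_left hb (abs_nonneg _)
  have h2 : |(a' - a) * b| ≤ 2 * |b| := by
    rw [abs_mul]; exact mul_le_mul_of_nonneg_right ha (abs_nonneg _)
  have h3 : |(a' - a) * (b' - b)| ≤ 2 * 2 := by
    rw [abs_mul]; exact mul_le_mul ha hb (abs_nonneg _) (by norm_num)
  have := abs_add_le (a * (b' - b) + (a' - a) * b) ((a' - a) * (b' - b))
  have h4 := abs_add_le (a * (b' - b)) ((a' - a) * b)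
  linarith

theorem minor_err {a b c d a' b' c' d' : ℝ} (ha : |a' - a| ≤ 2) (hb : |b' - b| ≤ 2)
    (hc : |c' - c| ≤ 2) (hd : |d' - d| ≤ 2) :
    |(a' * b' - c' * d') - (a * b - c * d)| ≤ 2 * (|a| + |b| + |c| + |d|) + 8 := by
  have h1 := prod_err ha hb
  have h2 := prod_err hc hd
  have e : (a' * b' - c' * d') - (a * b - c * d) = (a' * b' - a * b) - (c' * d' - c * d) := by ring
  rw [e]
  have := abs_sub (a' * b' - a * b) (c' * d' - c * d)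
  linarith

theorem diff_err {x y a b : ℝ} (hx : |10 ^ 6 * x - a| ≤ 1) (hy : |10 ^ 6 * y - b| ≤ 1) :
    |10 ^ 6 * (x - y) - (a - b)| ≤ 2 := by
  have e : 10 ^ 6 * (x - y) - (a - b) = (10 ^ 6 * x - a) - (10 ^ 6 * y - b) := by ring
  rw [e]
  have := abs_sub (10 ^ 6 * x - a) (10 ^ 6 * y - b)
  linarith

theorem crx_err {P : Fin 48 → V3} {p q r : Pt} (hp : Near P p) (hq : Near P q) (hr : Near P r) :
    |10 ^ 12 * cx (P p.1) (P q.1) (P r.1) - (crx p q r : ℝ)| ≤ (erx p q r : ℝ) := by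
  have a1 := diff_err hq.2.1 hp.2.1
  have a2 := diff_err hr.2.2 hp.2.2
  have a3 := diff_err hq.2.2 hp.2.2
  have a4 := diff_err hr.2.1 hp.2.1
  have h := minor_err a1 a2 a3 a4
  unfold crx erx cx
  push_cast
  refine le_trans (le_of_eq ?_) (h.trans (le_of_eq ?_))
  · congr 1
    ring
  · ring

theorem cry_err {P : Fin 48 → V3} {p q r : Pt} (hp : Near P p) (hq : Near P q) (hr : Near P r) :
    |10 ^ 12 * cy (P p.1) (P q.1) (P r.1) - (cry p q r : ℝ)| ≤ (ery p q r : ℝ) := by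
  have a1 := diff_err hq.2.2 hp.2.2
  have a2 := diff_err hr.1 hp.1
  have a3 := diff_err hq.1 hp.1
  have a4 := diff_err hr.2.2 hp.2.2
  have h := minor_err a1 a2 a3 a4
  unfold cry ery cy
  push_cast
  refine le_trans (le_of_eq ?_) (h.trans (le_of_eq ?_))
  · congr 1
    ring
  · ring

theorem crz_err {P : Fin 48 → V3} {p q r : Pt} (hp : Near P p) (hq : Near P q) (hr : Near P r) :
    |10 ^ 12 * cz (P p.1) (P q.1) (P r.1) - (crz p q r : ℝ)| ≤ (erz p q r : ℝ) := by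
  have a1 := diff_err hq.1 hp.1
  have a2 := diff_err hr.2.1 hp.2.1
  have a3 := diff_err hq.2.1 hp.2.1
  have a4 := diff_err hr.1 hp.1
  have h := minor_err a1 a2 a3 a4
  unfold crz erz cz
  push_cast
  refine le_trans (le_of_eq ?_) (h.trans (le_of_eq ?_))
  · congr 1
    ring
  · ring

def dval (w : Z3) (p q r : Pt) : ℤ := w.1 * crx p q r + w.2.1 * cry p q r + w.2.2 * crz p q r
def derr (w : Z3) (p q r : Pt) : ℤ :=
  |w.1| * erx p q r + |w.2.1| * ery p q r + |w.2.2| * erz p q r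

/-- The real number approximated by `dval`. -/
noncomputable def dreal (w : Z3) (p q r : V3) : ℝ :=
  w.1 * cx p q r + w.2.1 * cy p q r + w.2.2 * cz p q r

theorem dval_err {P : Fin 48 → V3} {p q r : Pt} (w : Z3) (hp : Near P p) (hq : Near P q)
    (hr : Near P r) :
    |10 ^ 12 * dreal w (P p.1) (P q.1) (P r.1) - (dval w p q r : ℝ)| ≤ (derr w p q r : ℝ) := by
  have h1 := crx_err hp hq hr
  have h2 := cry_err hp hq hr
  have h3 := crz_err hp hq hr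
  unfold dreal dval derr
  push_cast
  have e : (10 : ℝ) ^ 12 * ((w.1 : ℝ) * cx (P p.1) (P q.1) (P r.1) +
      w.2.1 * cy (P p.1) (P q.1) (P r.1) + w.2.2 * cz (P p.1) (P q.1) (P r.1)) -
      ((w.1 : ℝ) * crx p q r + w.2.1 * cry p q r + w.2.2 * crz p q r) =
      (w.1 : ℝ) * (10 ^ 12 * cx (P p.1) (P q.1) (P r.1) - crx p q r) +
      (w.2.1 : ℝ) * (10 ^ 12 * cy (P p.1) (P q.1) (P r.1) - cry p q r) +
      (w.2.2 : ℝ) * (10 ^ 12 * cz (P p.1) (P q.1) (P r.1) - crz p q r) := by ring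
  rw [e]
  refine (abs_add_le _ _).trans (add_le_add ((abs_add_le _ _).trans (add_le_add ?_ ?_)) ?_)
  · rw [abs_mul]; exact mul_le_mul_of_nonneg_left h1 (abs_nonneg _)
  · rw [abs_mul]; exact mul_le_mul_of_nonneg_left h2 (abs_nonneg _)
  · rw [abs_mul]; exact mul_le_mul_of_nonneg_left h3 (abs_nonneg _)

def dpos (w : Z3) (p q r : Pt) : Bool := decide (derr w p q r < dval w p q r)
def dne (w : Z3) (p q r : Pt) : Bool := decide (derr w p q r < |dval w p q r|)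

theorem dpos_sound {P : Fin 48 → V3} {w : Z3} {p q r : Pt} (h : dpos w p q r = true)
    (hp : Near P p) (hq : Near P q) (hr : Near P r) : 0 < dreal w (P p.1) (P q.1) (P r.1) := by
  have h1 : derr w p q r < dval w p q r := by simpa [dpos] using h
  have h2 := (abs_le.1 (dval_err w hp hq hr)).1
  have h3 : (derr w p q r : ℝ) < dval w p q r := by exact_mod_cast h1
  have : 0 < (10 : ℝ) ^ 12 * dreal w (P p.1) (P q.1) (P r.1) := by linarith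
  exact (mul_pos_iff_of_pos_left (by norm_num)).1 this

theorem dne_sound {P : Fin 48 → V3} {w : Z3} {p q r : Pt} (h : dne w p q r = true)
    (hp : Near P p) (hq : Near P q) (hr : Near P r) : dreal w (P p.1) (P q.1) (P r.1) ≠ 0 := by
  have h1 : derr w p q r < |dval w p q r| := by simpa [dne] using h
  have h2 := dval_err w hp hq hr
  have h3 : (derr w p q r : ℝ) < |(dval w p q r : ℝ)| := by exact_mod_cast h1
  intro h0
  rw [h0, mul_zero, zero_sub, abs_neg] at h2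
  linarith

theorem dreal_not_collinear {w : Z3} {p q r : V3} (h : dreal w p q r ≠ 0) :
    ¬ Collinear ℝ {p, q, r} := not_collinear_of_cross _ _ _ h

/-! Determinants. -/

def mx9 (a b c d e f g h i : ℤ) : ℤ :=
  max |a| (max |b| (max |c| (max |d| (max |e| (max |f| (max |g| (max |h| |i|)))))))

def dtz (p q r s : Pt) : ℤ :=
  (q.2.1 - p.2.1) * ((r.2.2.1 - p.2.2.1) * (s.2.2.2 - p.2.2.2) - (r.2.2.2 - p.2.2.2) * (s.2.2.1 - p.2.2.1))
  - (q.2.2.1 - p.2.2.1) * ((r.2.1 - p.2.1) * (s.2.2.2 - p.2.2.2) - (r.2.2.2 - p.2.2.2) * (s.2.1 - p.2.1))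
  + (q.2.2.2 - p.2.2.2) * ((r.2.1 - p.2.1) * (s.2.2.1 - p.2.2.1) - (r.2.2.1 - p.2.2.1) * (s.2.1 - p.2.1))

def mtz (p q r s : Pt) : ℤ :=
  mx9 (q.2.1 - p.2.1) (q.2.2.1 - p.2.2.1) (q.2.2.2 - p.2.2.2)
    (r.2.1 - p.2.1) (r.2.2.1 - p.2.2.1) (r.2.2.2 - p.2.2.2)
    (s.2.1 - p.2.1) (s.2.2.1 - p.2.2.1) (s.2.2.2 - p.2.2.2)

theorem trip_err {a b c a' b' c' m : ℝ} (ha : |a' - a| ≤ 2) (hb : |b' - b| ≤ 2)
    (hc : |c' - c| ≤ 2) (ma : |a| ≤ m) (mb : |b| ≤ m) (mc : |c| ≤ m) :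
    |a' * (b' * c') - a * (b * c)| ≤ 6 * m ^ 2 + 12 * m + 8 := by
  have hm : 0 ≤ m := (abs_nonneg _).trans ma
  have h1 : |b' * c' - b * c| ≤ 2 * |b| + 2 * |c| + 4 := prod_err hb hc
  have h2 : |b' * c' - b * c| ≤ 4 * m + 4 := by linarith
  have h3 : |a'| ≤ m + 2 := by
    have : |a'| ≤ |a' - a| + |a| := by
      have := abs_add_le (a' - a) a
      simpa using this
    linarith
  have h4 : |b * c| ≤ m * m := by
    rw [abs_mul]; exact mul_le_mul mb mc (abs_nonneg _) hm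
  have e : a' * (b' * c') - a * (b * c) = a' * (b' * c' - b * c) + (a' - a) * (b * c) := by ring
  rw [e]
  have h5 : |a' * (b' * c' - b * c)| ≤ (m + 2) * (4 * m + 4) := by
    rw [abs_mul]; exact mul_le_mul h3 h2 (abs_nonneg _) (by linarith)
  have h6 : |(a' - a) * (b * c)| ≤ 2 * (m * m) := by
    rw [abs_mul]; exact mul_le_mul ha h4 (abs_nonneg _) (by norm_num)
  have := abs_add_le (a' * (b' * c' - b * c)) ((a' - a) * (b * c))
  nlinarith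

theorem le_mx9 (a b c d e f g h i : ℤ) : |a| ≤ mx9 a b c d e f g h i ∧ |b| ≤ mx9 a b c d e f g h i ∧
    |c| ≤ mx9 a b c d e f g h i ∧ |d| ≤ mx9 a b c d e f g h i ∧ |e| ≤ mx9 a b c d e f g h i ∧
    |f| ≤ mx9 a b c d e f g h i ∧ |g| ≤ mx9 a b c d e f g h i ∧ |h| ≤ mx9 a b c d e f g h i ∧
    |i| ≤ mx9 a b c d e f g h i := by
  unfold mx9
  refine ⟨?_, ?_, ?_, ?_, ?_, ?_, ?_, ?_, ?_⟩ <;> simp

theorem dtz_err {P : Fin 48 → V3} {p q r s : Pt} (hp : Near P p) (hq : Near P q)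
    (hr : Near P r) (hs : Near P s) :
    |10 ^ 18 * det3 (P p.1) (P q.1) (P r.1) (P s.1) - (dtz p q r s : ℝ)| ≤
      6 * (6 * (mtz p q r s : ℝ) ^ 2 + 12 * (mtz p q r s : ℝ) + 8) := by
  obtain ⟨m1, m2, m3, m4, m5, m6, m7, m8, m9⟩ := le_mx9 (q.2.1 - p.2.1) (q.2.2.1 - p.2.2.1)
    (q.2.2.2 - p.2.2.2) (r.2.1 - p.2.1) (r.2.2.1 - p.2.2.1) (r.2.2.2 - p.2.2.2)
    (s.2.1 - p.2.1) (s.2.2.1 - p.2.2.1) (s.2.2.2 - p.2.2.2)
  rw [show mx9 (q.2.1 - p.2.1) (q.2.2.1 - p.2.2.1)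
    (q.2.2.2 - p.2.2.2) (r.2.1 - p.2.1) (r.2.2.1 - p.2.2.1) (r.2.2.2 - p.2.2.2)
    (s.2.1 - p.2.1) (s.2.2.1 - p.2.2.1) (s.2.2.2 - p.2.2.2) = mtz p q r s from rfl]
    at m1 m2 m3 m4 m5 m6 m7 m8 m9
  generalize mtz p q r s = m at *
  have c1 : |(q.2.1 : ℝ) - p.2.1| ≤ m := by exact_mod_cast m1
  have c2 : |(q.2.2.1 : ℝ) - p.2.2.1| ≤ m := by exact_mod_cast m2
  have c3 : |(q.2.2.2 : ℝ) - p.2.2.2| ≤ m := by exact_mod_cast m3
  have c4 : |(r.2.1 : ℝ) - p.2.1| ≤ m := by exact_mod_cast m4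
  have c5 : |(r.2.2.1 : ℝ) - p.2.2.1| ≤ m := by exact_mod_cast m5
  have c6 : |(r.2.2.2 : ℝ) - p.2.2.2| ≤ m := by exact_mod_cast m6
  have c7 : |(s.2.1 : ℝ) - p.2.1| ≤ m := by exact_mod_cast m7
  have c8 : |(s.2.2.1 : ℝ) - p.2.2.1| ≤ m := by exact_mod_cast m8
  have c9 : |(s.2.2.2 : ℝ) - p.2.2.2| ≤ m := by exact_mod_cast m9
  have q0 := diff_err hq.1 hp.1
  have q1 := diff_err hq.2.1 hp.2.1
  have q2 := diff_err hq.2.2 hp.2.2
  have r0 := diff_err hr.1 hp.1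
  have r1 := diff_err hr.2.1 hp.2.1
  have r2 := diff_err hr.2.2 hp.2.2
  have s0 := diff_err hs.1 hp.1
  have s1 := diff_err hs.2.1 hp.2.1
  have s2 := diff_err hs.2.2 hp.2.2
  have t1 := trip_err q0 r1 s2 c1 c5 c9
  have t2 := trip_err q0 r2 s1 c1 c6 c8
  have t3 := trip_err q1 r0 s2 c2 c4 c9
  have t4 := trip_err q1 r2 s0 c2 c6 c7
  have t5 := trip_err q2 r0 s1 c3 c4 c8
  have t6 := trip_err q2 r1 s0 c3 c5 c7
  unfold det3 dtz
  push_cast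
  rw [abs_le] at t1 t2 t3 t4 t5 t6 ⊢
  constructor
  · nlinarith [t1.1, t2.2, t3.2, t4.1, t5.1, t6.2]
  · nlinarith [t1.2, t2.1, t3.1, t4.2, t5.2, t6.1]

def detOK (p q r s : Pt) : Bool :=
  decide (6 * (6 * (mtz p q r s) ^ 2 + 12 * (mtz p q r s) + 8) < |dtz p q r s|)

theorem detOK_sound {P : Fin 48 → V3} {p q r s : Pt} (h : detOK p q r s = true)
    (hp : Near P p) (hq : Near P q) (hr : Near P r) (hs : Near P s) :
    det3 (P p.1) (P q.1) (P r.1) (P s.1) ≠ 0 := by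
  have h1 : 6 * (6 * (mtz p q r s) ^ 2 + 12 * (mtz p q r s) + 8) < |dtz p q r s| := by
    simpa [detOK] using h
  have h2 := dtz_err hp hq hr hs
  have h3 : (6 : ℝ) * (6 * (mtz p q r s : ℝ) ^ 2 + 12 * (mtz p q r s : ℝ) + 8) <
      |(dtz p q r s : ℝ)| := by exact_mod_cast h1
  intro h0
  rw [h0, mul_zero, zero_sub, abs_neg] at h2
  linarith

end Pool.Agent.Helper874.Pent
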