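import Pool.Agent.Helper874.Pent.Newton

set_option autoImplicit false

namespace Pool.Agent.Helper874.Pent

/-- Approximate values of the 24 unknowns (scaled by `10^10`). -/
def bzL : List ℤ := [
  -6648303676, -3451804317, 9319564342, -2498671308, 8514206440, -5074775973, -5988691912,
  1937030811, -3047164233, 3482617930, 7399914759, 6062450804, -5187812017, -16032682616,
  -10218380840, 14975048955, 4333673084, -19807758686, -6586155048, -17541229142, -12967327647,
  -9591661210, -5097367083, -17206900964]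

/-- Signs in the 20 equations. -/
def szL : List (List ℤ) := [
  [-1, 1, -1], [-1, -1, 1], [-1, 1, -1], [1, 1, 1], [1, -1, -1], [-1, 1, -1], [1, -1, -1],
  [1, -1, -1], [1, -1, -1], [1, 1, 1], [1, 1, 1], [1, -1, -1], [1, -1, -1], [1, -1, -1],
  [1, 1, 1], [-1, 1, -1], [1, 1, 1], [1, 1, 1], [-1, 1, -1], [1, 1, 1]]

/-- Vertex variables in the 20 equations. -/
def ibL : List (List ℕ) := [
  [8, 6, 7], [10, 11, 9], [4, 5, 3], [7, 8, 6], [11, 9, 10], [9, 10, 11], [0, 1, 2], [4, 5, 3],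
  [2, 0, 1], [3, 4, 5], [8, 6, 7], [5, 3, 4], [1, 2, 0], [3, 4, 5], [2, 0, 1], [9, 10, 11],
  [7, 8, 6], [1, 2, 0], [10, 11, 9], [6, 7, 8]]

/-- Approximate right inverse of the Jacobian (scaled by `10^4`). -/
def RzL : List (List ℤ) := [

  [-66, -814, -928, 6282, -5727, 1001, -1034, 940, -1963, 178, -2178, -422, 1726, -397, -1063, -83, 1715, -3290, 6134, -5370],
  [65, 1021, -1481, 1682, -1936, -878, -1227, -2071, 2314, 2457, 22, 824, -1343, 1233, -926, 162, -155, -1693, 1858, -1442],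
  [81, -3093, 4860, -5231, 4751, 2273, 2942, 124, 2319, -4949, 887, 820, 928, -1060, 701, 195, -627, 1719, -4534, 4676],
  [-112, 9518, -10749, 3762, -3473, -7896, 263, 1924, -516, 7796, 340, 1493, 131, -977, 102, -149, -459, -55, 2154, -3491],
  [170, -9033, 11073, -5667, 4992, 7243, 1281, 1568, -16, -8013, 201, 111, -1559, 2593, -208, 358, -23, 296, -3868, 5238],
  [-272, 12273, -14656, 7321, -6292, -9930, 1634, 977, -336, 7960, -709, 497, -1492, 1583, 172, -467, 428, -78, 4704, -6684],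
  [-2961, 3641, -2733, -1867, 2594, -3132, 99, -508, 11, 2883, -1513, -100, 74, 707, -491, 248, -1366, 811, -2967, 1946],
  [3355, 3963, -6640, 9217, -8188, -3062, -3437, -2912, 233, 6316, -7494, 2135, 3469, 1427, 1144, -626, 2032, -1945, 7355, -5599],
  [1187, -9208, 9818, -7777, 4226, 7794, 1243, 2220, -93, -9094, 4044, -1137, -1192, -1688, -592, 254, -913, 989, -2567, 751],
  [-383, 6227, -6218, 1615, -113, -7212, 781, -905, -1, 6078, -55, -45, -1081, 1186, 1039, 2697, 363, -1557, 1438, -1904],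
  [-578, 339, 594, 2069, -78, 4216, -2298, -626, 87, -1328, -2125, 1364, 2324, -514, 234, -3553, 2609, -559, 5920, -2251],
  [15, -1758, 3164, -3878, 3830, 3729, -400, 393, 11, -3241, 1038, 245, 220, -729, 647, 3175, -746, -1066, -3332, 3308],
  [1328, 1045, -2799, -20223, 16658, -2132, 1757, 1139, -188, 1507, 4357, -705, -1682, -430, -1543, 1533, -4161, 2394, -17138, 18882],
  [-1374, -18425, 10166, 7220, -9248, 15816, -4997, -477, 245, -10443, -3479, 2634, 4773, -2112, 1996, -850, 4401, -3479, 11423, -7571],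
  [96, 24719, -21947, -10890, 1447, -21608, 2590, -1943, -158, 19757, 1427, -204, -2912, 3013, -82, 367, -569, 199, -5791, 9480],
  [396, -11753, 13367, -8313, 6871, 9742, 256, 6637, 530, -13669, 2935, -3874, -243, -3408, -382, 322, -2325, 722, -5256, 7119],
  [-709, 16653, -21701, 17091, -13995, -12964, -852, -1478, 617, 20086, -4753, -785, 417, 3163, 647, -1187, 3867, -1072, 12105, -15186],
  [-510, 6196, -8046, 10455, -8289, -4902, -6066, -2544, 549, 5815, -5479, 3154, 5700, 138, 724, -463, 4587, -1757, 7588, -8724],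
  [147, -6997, 7627, 394, -864, 5631, 2419, 4064, 117, -6609, -1535, -4180, -2381, -1242, 3996, 497, 1211, -3438, 1904, 124],
  [84, -5954, 9051, -9201, 8627, 4498, 4954, 4761, -867, -9090, 1207, -3338, -5585, -2432, -3612, 216, -737, 3635, -8170, 8218],
  [175, -1219, 4167, -9479, 8362, 409, 1240, 4570, -1152, -1030, 2824, -7372, -1170, 739, -3682, 367, -2251, 3514, -8624, 8293],
  [-2162, 20013, -22577, 24821, -15431, -16877, -2558, -4507, 140, 20243, -7659, 2503, 2547, 3385, 458, -616, 8078, -910, 11769, -23731],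
  [149, 2557, -5081, 17175, -13040, -2033, -97, -13, -91, 3460, 800, 350, 332, -46, -1613, -145, -2463, 2397, 12524, -15521],
  [1348, -3800, 5412, -3488, 3706, 2844, 3383, 2782, -234, -5872, 10023, -1534, -4099, -1760, 1051, -51, -11383, -1570, -3635, 2959]]

def bz (i : Fin 24) : ℤ := bzL.getD i.val 0

/-- Coarser approximate values (scaled by `10^6`). -/
def zbL : List ℤ := [
  -664830, -345180, 931956, -249867, 851421, -507478, -598869, 193703, -304716, 348262, 739991,
  606245, -518781, -1603268, -1021838, 1497505, 433367, -1980776, -658616, -1754123, -1296733,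
  -959166, -509737, -1720690]

def zb (i : Fin 24) : ℤ := zbL.getD i.val 0

theorem zb_close : ∀ i : Fin 24, |bz i - 10 ^ 4 * zb i| ≤ 5000 := by decide +kernel

def sz (e : Fin 20) (k : Fin 3) : ℤ := (szL.getD e.val []).getD k.val 0

def Rz (i : Fin 24) (j : Fin 20) : ℤ := (RzL.getD i.val []).getD j.val 0

def ia (e : Fin 20) (k : Fin 3) : Fin 24 := Fin.ofNat 24 (12 + 3 * (e.val / 5) + k.val)

def ib (e : Fin 20) (k : Fin 3) : Fin 24 := Fin.ofNat 24 ((ibL.getD e.val []).getD k.val 0)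

theorem n1 : ∀ e k, |sz e k| ≤ 1 := by decide +kernel

theorem n2 : ∀ i : Fin 24, ∑ j : Fin 20, |Rz i j| ≤ 190985 := by decide +kernel

theorem n3 : ∀ e : Fin 20, ∑ j : Fin 20, |(∑ k : Fin 3, sz e k *
    (bz (ia e k) * Rz (ib e k) j + Rz (ia e k) j * bz (ib e k))) -
    (if e = j then 10 ^ 14 else 0)| ≤ 153074359828 := by decide +kernel

theorem n4 : ∀ e : Fin 20, |(∑ k : Fin 3, sz e k * (bz (ia e k) * bz (ib e k))) - 10 ^ 20| ≤
    20411570702 := by decide +kernel

theorem exists_w : ∃ w : Fin 24 → ℝ, (∀ i, |w i - (bz i : ℝ) / 10 ^ 10| ≤ 2 / 10 ^ 8) ∧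
    ∀ e, ∑ k, (sz e k : ℝ) * (w (ia e k) * w (ib e k)) = 1 := by
  have h := exists_zero (fun e k => (sz e k : ℝ)) ia ib (fun e k => by exact_mod_cast n1 e k)
    (fun i => (bz i : ℝ) / 10 ^ 10) (fun i j => (Rz i j : ℝ) / 10 ^ 4) 20 (16 / 10 ^ 4)
    (1 / 10 ^ 9) (205 / 10 ^ 12) ?_ (by norm_num) ?_ ?_ (by norm_num) (by norm_num)
    (by norm_num) (by norm_num)
  · obtain ⟨w, h1, h2⟩ := h
    refine ⟨w, fun i => (h1 i).trans (by norm_num), h2⟩
  · intro i
    have h := n2 i
    have e : ∑ j : Fin 20, |(Rz i j : ℝ) / 10 ^ 4| = ((∑ j : Fin 20, |Rz i j| : ℤ) : ℝ) / 10 ^ 4 := by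
      push_cast
      rw [Finset.sum_div]
      refine Finset.sum_congr rfl fun j _ => ?_
      rw [abs_div, abs_of_pos (by norm_num : (0 : ℝ) < 10 ^ 4)]
    rw [e]
    have h' : ((∑ j : Fin 20, |Rz i j| : ℤ) : ℝ) ≤ 190985 := by exact_mod_cast h
    rw [div_le_iff₀ (by norm_num)]
    exact h'.trans (by norm_num)
  · intro e
    have h := n3 e
    have e1 : ∑ j : Fin 20, |(∑ k : Fin 3, (sz e k : ℝ) *
        ((bz (ia e k) : ℝ) / 10 ^ 10 * ((Rz (ib e k) j : ℝ) / 10 ^ 4) +
          (Rz (ia e k) j : ℝ) / 10 ^ 4 * ((bz (ib e k) : ℝ) / 10 ^ 10))) -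
        (if e = j then (1 : ℝ) else 0)| = ((∑ j : Fin 20, |(∑ k : Fin 3, sz e k *
        (bz (ia e k) * Rz (ib e k) j + Rz (ia e k) j * bz (ib e k))) -
        (if e = j then 10 ^ 14 else 0)| : ℤ) : ℝ) / 10 ^ 14 := by
      push_cast
      rw [Finset.sum_div]
      refine Finset.sum_congr rfl fun j _ => ?_
      rw [← abs_of_pos (by norm_num : (0 : ℝ) < 10 ^ 14), ← abs_div]
      congr 1
      rw [sub_div, Finset.sum_div]
      congr 1
      · refine Finset.sum_congr rfl fun k _ => ?_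
        ring
      · split_ifs <;> norm_num
    rw [e1]
    have h' : ((∑ j : Fin 20, |(∑ k : Fin 3, sz e k *
        (bz (ia e k) * Rz (ib e k) j + Rz (ia e k) j * bz (ib e k))) -
        (if e = j then 10 ^ 14 else 0)| : ℤ) : ℝ) ≤ 153074359828 := by exact_mod_cast h
    rw [div_le_iff₀ (by norm_num)]
    exact h'.trans (by norm_num)
  · intro e
    have h := n4 e
    have e1 : (∑ k : Fin 3, (sz e k : ℝ) *
        ((bz (ia e k) : ℝ) / 10 ^ 10 * ((bz (ib e k) : ℝ) / 10 ^ 10))) - 1 =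
        (((∑ k : Fin 3, sz e k * (bz (ia e k) * bz (ib e k))) - 10 ^ 20 : ℤ) : ℝ) / 10 ^ 20 := by
      push_cast
      rw [sub_div, Finset.sum_div]
      congr 1
      · refine Finset.sum_congr rfl fun k _ => ?_
        ring
      · norm_num
    rw [e1, abs_div, abs_of_pos (by norm_num : (0 : ℝ) < 10 ^ 20), div_le_iff₀ (by norm_num)]
    have h' : (|(((∑ k : Fin 3, sz e k * (bz (ia e k) * bz (ib e k))) - 10 ^ 20 : ℤ) : ℝ)|) ≤
        20411570702 := by exact_mod_cast h
    exact h'.trans (by norm_num)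

end Pool.Agent.Helper874.Pent
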