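import Pool.Agent.Helper874.Pent.Data
import Pool.Agent.Helper874.Pent.Solve

set_option autoImplicit false

namespace Pool.Agent.Helper874.Pent

/-! ### Positions -/

def sg (i : Fin 48) (c : Fin 3) : ℤ := if i.val % 4 = 0 ∨ i.val % 4 = c.val + 1 then 1 else -1

def kk (i : Fin 48) : Fin 3 := Fin.ofNat 3 ((i.val % 12) / 4)

def vx (i : Fin 48) (c : Fin 3) : Fin 24 := Fin.ofNat 24 (3 * (i.val / 12) + (c + kk i).val)

def nx (i : Fin 48) (c : Fin 3) : Fin 24 := Fin.ofNat 24 (12 + 3 * (i.val / 12) + (c + kk i).val)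

noncomputable def pos (w : Fin 24 → ℝ) (i : Fin 48) : V3 :=
  WithLp.toLp 2 (fun c => (sg i c : ℝ) * w (vx i c))

theorem pos_apply (w : Fin 24 → ℝ) (i : Fin 48) (c : Fin 3) :
    pos w i c = (sg i c : ℝ) * w (vx i c) := rfl

theorem sg_abs : ∀ (i : Fin 48) (c : Fin 3), |sg i c| = 1 := by decide +kernel

def Close (w : Fin 24 → ℝ) : Prop := ∀ i, |w i - (bz i : ℝ) / 10 ^ 10| ≤ 2 / 10 ^ 8

theorem close_zb {w : Fin 24 → ℝ} (hw : Close w) (i : Fin 24) : |10 ^ 6 * w i - zb i| ≤ 1 := by
  have h1 := hw i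
  have h2 : |(bz i : ℝ) - 10 ^ 4 * zb i| ≤ 5000 := by exact_mod_cast zb_close i
  rw [abs_le] at h1 h2 ⊢
  constructor
  · have := h1.1
    have := h2.1
    linarith
  · have := h1.2
    have := h2.2
    linarith

theorem close_pos {w : Fin 24 → ℝ} (hw : Close w) (i : Fin 48) (c : Fin 3) :
    |10 ^ 6 * pos w i c - ((sg i c * zb (vx i c) : ℤ) : ℝ)| ≤ 1 := by
  rw [pos_apply]
  push_cast
  have e : (10 : ℝ) ^ 6 * ((sg i c : ℝ) * w (vx i c)) - (sg i c : ℝ) * zb (vx i c) =
      (sg i c : ℝ) * (10 ^ 6 * w (vx i c) - zb (vx i c)) := by ring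
  have h : |(sg i c : ℝ)| = 1 := by exact_mod_cast sg_abs i c
  rw [e, abs_mul, h, one_mul]
  exact close_zb hw _

def coordOK (p : Pt) : Bool :=
  decide (p.2.1 = sg p.1 0 * zb (vx p.1 0)) && decide (p.2.2.1 = sg p.1 1 * zb (vx p.1 1)) &&
    decide (p.2.2.2 = sg p.1 2 * zb (vx p.1 2))

theorem coords_ok : (fz.all fun F => F.all coordOK) = true := by decide +kernel

theorem near_of_mem {w : Fin 24 → ℝ} (hw : Close w) {F : List Pt} (hF : F ∈ fz) :
    ∀ p ∈ F, Near (pos w) p := by
  intro p hp
  have h := List.all_eq_true.1 (List.all_eq_true.1 coords_ok F hF) p hp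
  simp only [coordOK, Bool.and_eq_true, decide_eq_true_iff] at h
  obtain ⟨⟨h1, h2⟩, h3⟩ := h
  refine ⟨?_, ?_, ?_⟩
  · rw [h1]; exact close_pos hw _ _
  · rw [h2]; exact close_pos hw _ _
  · rw [h3]; exact close_pos hw _ _

/-! ### Faces -/

theorem fz_length : fz.length = 48 := by decide +kernel

def fc (j : Fin 48) : List Pt := fz.getD j.val []

def face (j : Fin 48) : List (Fin 48) := ids (fc j)

theorem fc_mem (j : Fin 48) : fc j ∈ fz := by
  have h : j.val < fz.length := by rw [fz_length]; exact j.2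
  unfold fc
  rw [List.getD_eq_getElem _ _ h]
  exact List.getElem_mem h

theorem near_fc {w : Fin 24 → ℝ} (hw : Close w) (j : Fin 48) : ∀ p ∈ fc j, Near (pos w) p :=
  near_of_mem hw (fc_mem j)

/-! ### Checks -/

def checkRow (F : List Pt) : List (List Pt) → List (List ℕ) → Option (List (List ℕ))
  | [], cs => some cs
  | G :: Gs, c :: cs => if pairOK F G (c.map dec) then checkRow F Gs cs else none
  | _ :: _, [] => none

def checkAll : List (List Pt) → List (List ℕ) → Bool
  | [], _ => true
  | F :: Fs, cs => match checkRow F Fs cs with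
    | none => false
    | some cs' => checkAll Fs cs'

theorem checkRow_sound {F : List Pt} : ∀ {L : List (List Pt)} {cs cs' : List (List ℕ)},
    checkRow F L cs = some cs' → ∀ G ∈ L, ∃ c, pairOK F G c = true := by
  intro L
  induction L with
  | nil => intro cs cs' _ G hG; simp at hG
  | cons H L ih =>
    intro cs cs' h G hG
    rcases cs with _ | ⟨c, cs⟩
    · simp [checkRow] at h
    · simp only [checkRow] at h
      split_ifs at h with h1
      rcases List.mem_cons.1 hG with rfl | hG
      · exact ⟨_, h1⟩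
      · exact ih h G hG

theorem checkAll_sound : ∀ {L : List (List Pt)} {cs : List (List ℕ)}, checkAll L cs = true →
    L.Pairwise fun F G => ∃ c, pairOK F G c = true := by
  intro L
  induction L with
  | nil => intro cs _; exact List.Pairwise.nil
  | cons F L ih =>
    intro cs h
    simp only [checkAll] at h
    split at h
    · exact absurd h (by simp)
    · rename_i cs' hrow
      exact List.Pairwise.cons (checkRow_sound hrow) (ih h)

theorem all_ok : checkAll fz certs = true := by decide +kernel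

theorem pair_ok {i j : Fin 48} (h : i < j) : ∃ c, pairOK (fc i) (fc j) c = true := by
  have hp := checkAll_sound all_ok
  rw [List.pairwise_iff_getElem] at hp
  have hi : i.val < fz.length := by rw [fz_length]; exact i.2
  have hj : j.val < fz.length := by rw [fz_length]; exact j.2
  have := hp i.val j.val hi hj h
  unfold fc
  rwa [List.getD_eq_getElem _ _ hi, List.getD_eq_getElem _ _ hj]

def fdOK (j : Fin 48) : Bool :=
  faceOK (fc j) (fdat.getD j.val ((0, 0, 0), (0, 0, 0))).1 (fdat.getD j.val ((0, 0, 0), (0, 0, 0))).2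

theorem faces_ok : ∀ j : Fin 48, fdOK j = true := by decide +kernel

/-! ### Incidences of the planes and the vertices -/

theorem inc_ok : ∀ (j : Fin 48) (t : Fin 5) (c : Fin 3),
    ia (Fin.ofNat 20 (5 * (j.val / 12) + t.val)) (c + kk j) = nx j c ∧
    ib (Fin.ofNat 20 (5 * (j.val / 12) + t.val)) (c + kk j) = vx ((face j).getD t.val 0) c ∧
    sz (Fin.ofNat 20 (5 * (j.val / 12) + t.val)) (c + kk j) =
      sg j c * sg ((face j).getD t.val 0) c := by decide +kernel

theorem face_length : ∀ j : Fin 48, (face j).length = 5 := by decide +kernel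

theorem face_nodup : ∀ j : Fin 48, (face j).Nodup := by decide +kernel

theorem plane_eq {w : Fin 24 → ℝ} (hw : ∀ e, ∑ k, (sz e k : ℝ) * (w (ia e k) * w (ib e k)) = 1)
    (j : Fin 48) {v : Fin 48} (hv : v ∈ face j) :
    dotf (sg j 0 * w (nx j 0)) (sg j 1 * w (nx j 1)) (sg j 2 * w (nx j 2)) (pos w v) = 1 := by
  obtain ⟨t, ht, rfl⟩ := List.mem_iff_getElem.1 hv
  have ht5 : t < 5 := by rw [← face_length j]; exact ht
  have h := hw (Fin.ofNat 20 (5 * (j.val / 12) + t))
  have hsum := Equiv.sum_comp (Equiv.addRight (kk j)) (fun k =>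
    (sz (Fin.ofNat 20 (5 * (j.val / 12) + t)) k : ℝ) *
      (w (ia (Fin.ofNat 20 (5 * (j.val / 12) + t)) k) *
        w (ib (Fin.ofNat 20 (5 * (j.val / 12) + t)) k)))
  rw [h, Fin.sum_univ_three] at hsum
  simp only [Equiv.coe_addRight] at hsum
  have k0 := inc_ok j ⟨t, ht5⟩ 0
  have k1 := inc_ok j ⟨t, ht5⟩ 1
  have k2 := inc_ok j ⟨t, ht5⟩ 2
  simp only [List.getD_eq_getElem _ _ ht] at k0 k1 k2
  rw [k0.1, k0.2.1, k0.2.2, k1.1, k1.2.1, k1.2.2, k2.1, k2.2.1, k2.2.2] at hsum
  rw [← hsum, dotf_apply, pos_apply, pos_apply, pos_apply]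
  push_cast
  ring

theorem planar {w : Fin 24 → ℝ} (hw : ∀ e, ∑ k, (sz e k : ℝ) * (w (ia e k) * w (ib e k)) = 1)
    (j : Fin 48) : Coplanar ℝ (pos w '' {v | v ∈ face j}) := by
  refine coplanar_of_functional
    (dotf (sg j 0 * w (nx j 0)) (sg j 1 * w (nx j 1)) (sg j 2 * w (nx j 2))) ?_ ?_
  · intro h0
    have hl : 0 < (face j).length := by rw [face_length j]; norm_num
    have h1 := plane_eq hw j (List.getElem_mem hl)
    rw [h0] at h1
    simp at h1
  · rintro _ ⟨v, hv, rfl⟩
    exact plane_eq hw j hv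

/-! ### Injectivity -/

def zp (i : Fin 48) (c : Fin 3) : ℤ := sg i c * zb (vx i c)

theorem zp_sep : ∀ i j : Fin 48, i = j ∨ 2 < |zp i 0 - zp j 0| ∨ 2 < |zp i 1 - zp j 1| ∨
    2 < |zp i 2 - zp j 2| := by decide +kernel

theorem pos_inj {w : Fin 24 → ℝ} (hw : Close w) : Function.Injective (pos w) := by
  intro i j hij
  by_contra hne
  have key : ∀ c : Fin 3, |zp i c - zp j c| ≤ 2 := by
    intro c
    have h1 := close_pos hw i c
    have h2 := close_pos hw j c
    rw [hij] at h1
    have h3 : |((zp i c - zp j c : ℤ) : ℝ)| ≤ 2 := by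
      push_cast
      unfold zp
      rw [abs_le] at h1 h2 ⊢
      constructor <;> linarith [h1.1, h1.2, h2.1, h2.2]
    exact_mod_cast h3
  rcases zp_sep i j with h | h | h | h
  · exact hne h
  · exact absurd (key 0) (not_le.2 h)
  · exact absurd (key 1) (not_le.2 h)
  · exact absurd (key 2) (not_le.2 h)

/-! ### Common sides -/

def common (F G : List Pt) : List (Fin 48 × Fin 48) :=
  ((ids F).zip ((ids F).rotate 1)).filter fun e =>
    ((ids G).zip ((ids G).rotate 1)).contains (e.2, e.1)

def foldOK (F G : List Pt) : Bool :=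
  (common F G).all fun e => F.any fun a => F.any fun b => F.any fun c => G.any fun d =>
    (a.1 == e.1) && (b.1 == e.2) && detOK a b c d

theorem fold_ok : ∀ i j : Fin 48, i = j ∨ foldOK (fc i) (fc j) = true := by decide +kernel

/-- No ordered side is traversed by two faces. -/
theorem coherent : ∀ i j : Fin 48, i = j ∨
    (((face i).zip ((face i).rotate 1)).all fun e =>
      !((face j).zip ((face j).rotate 1)).contains e) = true := by decide +kernel

/-! ### Links and connectedness -/

theorem link_ok : ∀ (v : Fin 48) (i : Fin 5),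
    ((lw.getD v.val []).getD i.val 0, v) ∈ (face ((lf.getD v.val []).getD i.val 0)).zip
      ((face ((lf.getD v.val []).getD i.val 0)).rotate 1) ∧
    (v, (lw.getD v.val []).getD (i + 1).val 0) ∈ (face ((lf.getD v.val []).getD i.val 0)).zip
      ((face ((lf.getD v.val []).getD i.val 0)).rotate 1) := by decide +kernel

theorem lw_inj : ∀ (v : Fin 48) (i j : Fin 5),
    (lw.getD v.val []).getD i.val 0 = (lw.getD v.val []).getD j.val 0 → i = j := by
  decide +kernel

theorem lf_inj : ∀ (v : Fin 48) (i j : Fin 5),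
    (lf.getD v.val []).getD i.val 0 = (lf.getD v.val []).getD j.val 0 → i = j := by
  decide +kernel

theorem lf_all : ∀ (v f : Fin 48), v ∈ face f → ∃ i : Fin 5, (lf.getD v.val []).getD i.val 0 = f := by
  decide +kernel

def par (v : Fin 48) : Fin 48 := (tree.getD v.val (0, 0)).1
def dep (v : Fin 48) : ℕ := (tree.getD v.val (0, 0)).2

theorem tree_ok : ∀ v : Fin 48, v = 0 ∨ (dep (par v) < dep v ∧
    (∃ f : Fin 48, (v, par v) ∈ (face f).zip ((face f).rotate 1)) ∧
    (∃ f : Fin 48, (par v, v) ∈ (face f).zip ((face f).rotate 1))) := by decide +kernel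

def Adj (a b : Fin 48) : Prop := ∃ f : Fin 48, (a, b) ∈ (face f).zip ((face f).rotate 1)

theorem conn_aux (m : ℕ) : ∀ v : Fin 48, dep v = m →
    Relation.ReflTransGen Adj v 0 ∧ Relation.ReflTransGen Adj 0 v := by
  induction m using Nat.strong_induction_on with
  | _ m ih =>
    intro v hv
    rcases tree_ok v with rfl | ⟨h1, h2, h3⟩
    · exact ⟨Relation.ReflTransGen.refl, Relation.ReflTransGen.refl⟩
    · obtain ⟨g1, g2⟩ := ih (dep (par v)) (hv ▸ h1) (par v) rfl
      exact ⟨Relation.ReflTransGen.head h2 g1, Relation.ReflTransGen.tail g2 h3⟩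

theorem conn (u v : Fin 48) : Relation.ReflTransGen Adj u v :=
  (conn_aux _ u rfl).1.trans (conn_aux _ v rfl).2

/-! ### The number of edges -/

def edgeFin : Finset (Sym2 (Fin 48)) :=
  Finset.univ.biUnion fun f => (((face f).zip ((face f).rotate 1)).map fun e => s(e.1, e.2)).toFinset

theorem edge_card : edgeFin.card = 120 := by decide +kernel

end Pool.Agent.Helper874.Pent
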