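import Mathlib

set_option autoImplicit false

namespace Pool.Agent.Helper874.Pent

/-- Euclidean three-space. -/
abbrev V3 : Type := EuclideanSpace ℝ (Fin 3)

/-- The linear functional with coefficients `p q r`. -/
noncomputable def dotf (p q r : ℝ) : V3 →ₗ[ℝ] ℝ where
  toFun x := p * x 0 + q * x 1 + r * x 2
  map_add' x y := by simp; ring
  map_smul' c x := by simp; ring

theorem dotf_apply (p q r : ℝ) (x : V3) : dotf p q r x = p * x 0 + q * x 1 + r * x 2 := rfl

theorem exists_weights {ι : Type*} [DecidableEq ι] (P : ι → V3) (s : Finset ι) (x : V3)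
    (hx : x ∈ convexHull ℝ (P '' (s : Set ι))) :
    ∃ w : ι → ℝ, (∀ i ∈ s, 0 ≤ w i) ∧ ∑ i ∈ s, w i = 1 ∧ ∑ i ∈ s, w i • P i = x := by
  have hsub : P '' (s : Set ι) ⊆ {y : V3 | ∃ w : ι → ℝ, (∀ i ∈ s, 0 ≤ w i) ∧
      ∑ i ∈ s, w i = 1 ∧ ∑ i ∈ s, w i • P i = y} := by
    rintro _ ⟨j, hj, rfl⟩
    refine ⟨fun i => if i = j then 1 else 0, ?_, ?_, ?_⟩
    · intro i _
      dsimp only
      split_ifs <;> norm_num
    · rw [Finset.sum_ite_eq' s j]
      simp [Finset.mem_coe.1 hj]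
    · simp only [ite_smul, one_smul, zero_smul]
      rw [Finset.sum_ite_eq' s j]
      simp [Finset.mem_coe.1 hj]
  have hconv : Convex ℝ {y : V3 | ∃ w : ι → ℝ, (∀ i ∈ s, 0 ≤ w i) ∧
      ∑ i ∈ s, w i = 1 ∧ ∑ i ∈ s, w i • P i = y} := by
    rintro y ⟨w, h0, h2, h3⟩ z ⟨w', h0', h2', h3'⟩ a b ha hb hab
    refine ⟨fun i => a * w i + b * w' i, ?_, ?_, ?_⟩
    · intro i hi
      exact add_nonneg (mul_nonneg ha (h0 i hi)) (mul_nonneg hb (h0' i hi))
    · rw [Finset.sum_add_distrib, ← Finset.mul_sum, ← Finset.mul_sum, h2, h2']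
      simpa using hab
    · rw [← h3, ← h3', Finset.smul_sum, Finset.smul_sum, ← Finset.sum_add_distrib]
      refine Finset.sum_congr rfl fun i _ => ?_
      rw [add_smul, mul_smul, mul_smul]
  exact convexHull_min hsub hconv hx

/-- If a linear functional is strictly smaller on all points of `A` than on all points of `B`,
except that equal labels are allowed, then the hulls can only meet in a common vertex. -/
theorem hull_inter_of_sep {ι : Type*} [DecidableEq ι] (P : ι → V3) (φ : V3 →ₗ[ℝ] ℝ)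
    (A B : List ι) (h : ∀ u ∈ A, ∀ v ∈ B, u = v ∨ φ (P u) < φ (P v)) {x : V3}
    (hx : x ∈ convexHull ℝ (P '' {v | v ∈ A})) (hx' : x ∈ convexHull ℝ (P '' {v | v ∈ B})) :
    ∃ v, v ∈ A ∧ v ∈ B ∧ x = P v := by
  have eA : {v | v ∈ A} = ((A.toFinset : Finset ι) : Set ι) := by ext; simp
  have eB : {v | v ∈ B} = ((B.toFinset : Finset ι) : Set ι) := by ext; simp
  rw [eA] at hx
  rw [eB] at hx'
  obtain ⟨w, w0, w1, w2⟩ := exists_weights P _ x hx
  obtain ⟨u, u0, u1, u2⟩ := exists_weights P _ x hx'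
  have hz : ∑ i ∈ A.toFinset, ∑ j ∈ B.toFinset, w i * u j * (φ (P j) - φ (P i)) = 0 := by
    have e1 : φ x = ∑ j ∈ B.toFinset, u j * φ (P j) := by
      rw [← u2, map_sum]
      simp
    have e2 : φ x = ∑ i ∈ A.toFinset, w i * φ (P i) := by
      rw [← w2, map_sum]
      simp
    have e3 : ∑ i ∈ A.toFinset, ∑ j ∈ B.toFinset, w i * u j * (φ (P j) - φ (P i)) =
        (∑ i ∈ A.toFinset, w i) * (∑ j ∈ B.toFinset, u j * φ (P j)) -
        (∑ i ∈ A.toFinset, w i * φ (P i)) * (∑ j ∈ B.toFinset, u j) := by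
      rw [Finset.sum_mul_sum, Finset.sum_mul_sum, ← Finset.sum_sub_distrib]
      refine Finset.sum_congr rfl fun i _ => ?_
      rw [← Finset.sum_sub_distrib]
      refine Finset.sum_congr rfl fun j _ => ?_
      ring
    rw [e3, w1, u1, ← e1, ← e2]
    ring
  have hnn : ∀ i ∈ A.toFinset, ∀ j ∈ B.toFinset, 0 ≤ w i * u j * (φ (P j) - φ (P i)) := by
    intro i hi j hj
    rcases h i (List.mem_toFinset.1 hi) j (List.mem_toFinset.1 hj) with e | e
    · rw [e]; simp
    · exact mul_nonneg (mul_nonneg (w0 i hi) (u0 j hj)) (by linarith)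
  have hz2 := (Finset.sum_eq_zero_iff_of_nonneg
    (fun i hi => Finset.sum_nonneg (fun j hj => hnn i hi j hj))).1 hz
  have hz3 : ∀ i ∈ A.toFinset, ∀ j ∈ B.toFinset, w i * u j * (φ (P j) - φ (P i)) = 0 :=
    fun i hi => (Finset.sum_eq_zero_iff_of_nonneg (fun j hj => hnn i hi j hj)).1 (hz2 i hi)
  -- pick labels with positive weights
  obtain ⟨i, hi, hwi⟩ : ∃ i ∈ A.toFinset, w i ≠ 0 := by
    by_contra hcon
    push Not at hcon
    rw [Finset.sum_eq_zero hcon] at w1
    exact zero_ne_one w1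
  obtain ⟨j, hj, huj⟩ : ∃ j ∈ B.toFinset, u j ≠ 0 := by
    by_contra hcon
    push Not at hcon
    rw [Finset.sum_eq_zero hcon] at u1
    exact zero_ne_one u1
  have hij : ∀ i' ∈ A.toFinset, w i' ≠ 0 → i' = j := by
    intro i' hi' hw'
    rcases h i' (List.mem_toFinset.1 hi') j (List.mem_toFinset.1 hj) with e | e
    · exact e
    · exfalso
      have := hz3 i' hi' j hj
      have h3 : φ (P j) - φ (P i') ≠ 0 := by linarith [e] |> fun h : 0 < φ (P j) - φ (P i') => h.ne'
      exact (mul_ne_zero (mul_ne_zero hw' huj) h3) this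
  have e := hij i hi hwi
  subst e
  refine ⟨i, List.mem_toFinset.1 hi, List.mem_toFinset.1 hj, ?_⟩
  have hw1 : w i = 1 := by
    rw [← w1, Finset.sum_eq_single i]
    · intro b hb hbi
      by_contra hne
      exact hbi (hij b hb hne)
    · intro hcon
      exact absurd hi hcon
  rw [← w2, Finset.sum_eq_single i]
  · rw [hw1, one_smul]
  · intro b hb hbi
    have : w b = 0 := by
      by_contra hne
      exact hbi (hij b hb hne)
    rw [this, zero_smul]
  · intro hcon
    exact absurd hi hcon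

theorem mem_triangle {a b c x : V3} (hx : x ∈ convexHull ℝ {a, b, c}) :
    ∃ α β γ : ℝ, 0 ≤ α ∧ 0 ≤ β ∧ 0 ≤ γ ∧ α + β + γ = 1 ∧ x = α • a + β • b + γ • c := by
  have hsub : ({a, b, c} : Set V3) ⊆ {x | ∃ α β γ : ℝ, 0 ≤ α ∧ 0 ≤ β ∧ 0 ≤ γ ∧ α + β + γ = 1 ∧
      x = α • a + β • b + γ • c} := by
    rintro y (rfl | rfl | rfl)
    · exact ⟨1, 0, 0, by norm_num, by norm_num, by norm_num, by norm_num, by simp⟩
    · exact ⟨0, 1, 0, by norm_num, by norm_num, by norm_num, by norm_num, by simp⟩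
    · exact ⟨0, 0, 1, by norm_num, by norm_num, by norm_num, by norm_num, by simp⟩
  have hconv : Convex ℝ {x : V3 | ∃ α β γ : ℝ, 0 ≤ α ∧ 0 ≤ β ∧ 0 ≤ γ ∧ α + β + γ = 1 ∧
      x = α • a + β • b + γ • c} := by
    rintro y ⟨α, β, γ, h1, h2, h3, h4, rfl⟩ z ⟨α', β', γ', h1', h2', h3', h4', rfl⟩ s t hs ht hst
    refine ⟨s * α + t * α', s * β + t * β', s * γ + t * γ', by positivity, by positivity,
      by positivity, ?_, ?_⟩
    · calc _ = s * (α + β + γ) + t * (α' + β' + γ') := by ring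
        _ = 1 := by rw [h4, h4']; linarith
    · simp only [smul_add, add_smul, mul_smul]
      abel
  exact convexHull_min hsub hconv hx

/-- Two triangles with a common side on different sides of a plane through that side meet only
in that side. -/
theorem triangle_inter_side {s t c c' x : V3} (φ : V3 →ₗ[ℝ] ℝ) (k : ℝ) (hs : φ s = k)
    (ht : φ t = k) (hc : φ c ≤ k) (hc' : k < φ c') (hx : x ∈ convexHull ℝ {s, t, c})
    (hx' : x ∈ convexHull ℝ {s, t, c'}) : x ∈ segment ℝ s t := by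
  obtain ⟨α, β, γ, h1, h2, h3, h4, e⟩ := mem_triangle hx
  obtain ⟨α', β', γ', h1', h2', h3', h4', e'⟩ := mem_triangle hx'
  have f1 : φ x = α * k + β * k + γ * φ c := by
    rw [e]; simp [hs, ht]
  have f2 : φ x = α' * k + β' * k + γ' * φ c' := by
    rw [e']; simp [hs, ht]
  have g1 : φ x ≤ k := by
    rw [f1]
    have h5 : γ * φ c ≤ γ * k := mul_le_mul_of_nonneg_left hc h3
    have h6 : α * k + β * k + γ * k = k := by
      calc α * k + β * k + γ * k = (α + β + γ) * k := by ring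
        _ = k := by rw [h4, one_mul]
    linarith
  have g2 : φ x = k + γ' * (φ c' - k) := by
    rw [f2]
    have : α' + β' = 1 - γ' := by linarith
    calc α' * k + β' * k + γ' * φ c' = (α' + β') * k + γ' * φ c' := by ring
      _ = k + γ' * (φ c' - k) := by rw [this]; ring
  have g3 : γ' = 0 := by
    by_contra hne
    have hpos : 0 < γ' := lt_of_le_of_ne h3' (Ne.symm hne)
    have : 0 < γ' * (φ c' - k) := mul_pos hpos (by linarith)
    linarith
  subst g3
  refine ⟨α', β', h1', h2', by linarith, ?_⟩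
  rw [e']
  simp

/-- `cross p q r` is the cross product of `q - p` and `r - p`. -/
def cx (p q r : V3) : ℝ := (q 1 - p 1) * (r 2 - p 2) - (q 2 - p 2) * (r 1 - p 1)
def cy (p q r : V3) : ℝ := (q 2 - p 2) * (r 0 - p 0) - (q 0 - p 0) * (r 2 - p 2)
def cz (p q r : V3) : ℝ := (q 0 - p 0) * (r 1 - p 1) - (q 1 - p 1) * (r 0 - p 0)

theorem not_collinear_of_cross {p q r : V3} (a b c : ℝ)
    (h : a * cx p q r + b * cy p q r + c * cz p q r ≠ 0) : ¬ Collinear ℝ {p, q, r} := by
  intro hc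
  rw [collinear_iff_of_mem (p₀ := p) (by simp)] at hc
  obtain ⟨v, hv⟩ := hc
  obtain ⟨s, hs⟩ := hv q (by simp)
  obtain ⟨t, ht⟩ := hv r (by simp)
  apply h
  have q0 : q 0 = s * v 0 + p 0 := by rw [hs]; simp
  have q1 : q 1 = s * v 1 + p 1 := by rw [hs]; simp
  have q2 : q 2 = s * v 2 + p 2 := by rw [hs]; simp
  have r0 : r 0 = t * v 0 + p 0 := by rw [ht]; simp
  have r1 : r 1 = t * v 1 + p 1 := by rw [ht]; simp
  have r2 : r 2 = t * v 2 + p 2 := by rw [ht]; simp
  unfold cx cy cz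
  rw [q0, q1, q2, r0, r1, r2]
  ring

/-- The determinant of `q - p, r - p, s - p`. -/
def det3 (p q r s : V3) : ℝ := (q 0 - p 0) * ((r 1 - p 1) * (s 2 - p 2) - (r 2 - p 2) * (s 1 - p 1))
      - (q 1 - p 1) * ((r 0 - p 0) * (s 2 - p 2) - (r 2 - p 2) * (s 0 - p 0))
      + (q 2 - p 2) * ((r 0 - p 0) * (s 1 - p 1) - (r 1 - p 1) * (s 0 - p 0))

theorem not_coplanar_of_det {S : Set V3} {p q r s : V3} (hp : p ∈ S) (hq : q ∈ S) (hr : r ∈ S)
    (hs : s ∈ S) (h : det3 p q r s ≠ 0) :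
    ¬ Coplanar ℝ S := by
  unfold det3 at h
  intro hc
  have hli : LinearIndependent ℝ ![q -ᵥ p, r -ᵥ p, s -ᵥ p] := by
    rw [Fintype.linearIndependent_iff]
    intro g hg
    rw [Fin.sum_univ_three] at hg
    have g0 : g 0 * (q 0 - p 0) + g 1 * (r 0 - p 0) + g 2 * (s 0 - p 0) = 0 := by
      have := congrArg (fun x : V3 => x 0) hg
      simpa using this
    have g1 : g 0 * (q 1 - p 1) + g 1 * (r 1 - p 1) + g 2 * (s 1 - p 1) = 0 := by
      have := congrArg (fun x : V3 => x 1) hg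
      simpa using this
    have g2 : g 0 * (q 2 - p 2) + g 1 * (r 2 - p 2) + g 2 * (s 2 - p 2) = 0 := by
      have := congrArg (fun x : V3 => x 2) hg
      simpa using this
    generalize q 0 - p 0 = a0 at *
    generalize q 1 - p 1 = a1 at *
    generalize q 2 - p 2 = a2 at *
    generalize r 0 - p 0 = b0 at *
    generalize r 1 - p 1 = b1 at *
    generalize r 2 - p 2 = b2 at *
    generalize s 0 - p 0 = c0 at *
    generalize s 1 - p 1 = c1 at *
    generalize s 2 - p 2 = c2 at *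
    have k0 : g 0 * (a0 * (b1 * c2 - b2 * c1) - a1 * (b0 * c2 - b2 * c0)
        + a2 * (b0 * c1 - b1 * c0)) = 0 := by
      linear_combination (b1 * c2 - b2 * c1) * g0 - (b0 * c2 - b2 * c0) * g1
        + (b0 * c1 - b1 * c0) * g2
    have k1 : g 1 * (a0 * (b1 * c2 - b2 * c1) - a1 * (b0 * c2 - b2 * c0)
        + a2 * (b0 * c1 - b1 * c0)) = 0 := by
      linear_combination (a2 * c1 - a1 * c2) * g0 + (a0 * c2 - a2 * c0) * g1
        + (a1 * c0 - a0 * c1) * g2
    have k2 : g 2 * (a0 * (b1 * c2 - b2 * c1) - a1 * (b0 * c2 - b2 * c0)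
        + a2 * (b0 * c1 - b1 * c0)) = 0 := by
      linear_combination (a1 * b2 - a2 * b1) * g0 + (a2 * b0 - a0 * b2) * g1
        + (a0 * b1 - a1 * b0) * g2
    intro i
    fin_cases i
    · exact (mul_eq_zero.1 k0).resolve_right h
    · exact (mul_eq_zero.1 k1).resolve_right h
    · exact (mul_eq_zero.1 k2).resolve_right h
  have hmem : ∀ i, (![q -ᵥ p, r -ᵥ p, s -ᵥ p] : Fin 3 → V3) i ∈ vectorSpan ℝ S := by
    intro i
    fin_cases i
    · exact vsub_mem_vectorSpan ℝ hq hp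
    · exact vsub_mem_vectorSpan ℝ hr hp
    · exact vsub_mem_vectorSpan ℝ hs hp
  have hle : Submodule.span ℝ (Set.range ![q -ᵥ p, r -ᵥ p, s -ᵥ p]) ≤ vectorSpan ℝ S := by
    rw [Submodule.span_le]
    rintro _ ⟨i, rfl⟩
    exact hmem i
  have h3 := finrank_span_eq_card hli
  have h2 : Module.finrank ℝ (vectorSpan ℝ S) ≤ 2 := by
    have := (coplanar_iff_finrank_le_two).1 hc
    exact this
  have h4 := Submodule.finrank_mono hle
  rw [h3] at h4
  simp at h4
  omega

/-- Points on which a nonzero linear functional takes the value `1` are coplanar. -/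
theorem coplanar_of_functional {S : Set V3} (φ : V3 →ₗ[ℝ] ℝ) (hne : φ ≠ 0)
    (h : ∀ x ∈ S, φ x = 1) : Coplanar ℝ S := by
  rw [coplanar_iff_finrank_le_two]
  have hle : vectorSpan ℝ S ≤ LinearMap.ker φ := by
    rw [vectorSpan_def, Submodule.span_le]
    rintro _ ⟨x, hx, y, hy, rfl⟩
    simp [h x hx, h y hy]
  have h1 := Submodule.finrank_mono hle
  have h2 := LinearMap.finrank_range_add_finrank_ker φ
  have h3 : Module.finrank ℝ V3 = 3 := by simp [V3]
  have h4 : 0 < Module.finrank ℝ (LinearMap.range φ) := by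
    rw [Module.finrank_pos_iff]
    obtain ⟨x, hx⟩ : ∃ x, φ x ≠ 0 := by
      by_contra hcon
      push Not at hcon
      exact hne (LinearMap.ext hcon)
    exact ⟨⟨⟨φ x, LinearMap.mem_range_self φ x⟩, 0, fun e => hx (congrArg Subtype.val e)⟩⟩
  omega

end Pool.Agent.Helper874.Pent
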