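import Mathlib

set_option autoImplicit false

namespace Pool.Agent.Helper874.Pent

open scoped BigOperators

/-- The linear map given by the matrix `R`. -/
def lin {n m : ℕ} (R : Fin n → Fin m → ℝ) (y : Fin m → ℝ) (i : Fin n) : ℝ := ∑ j, R i j * y j

theorem lin_bound {n m : ℕ} {R : Fin n → Fin m → ℝ} {K : ℝ} (hK : ∀ i, ∑ j, |R i j| ≤ K)
    (y : Fin m → ℝ) (i : Fin n) : |lin R y i| ≤ K * ‖y‖ := by
  unfold lin
  calc |∑ j, R i j * y j| ≤ ∑ j, |R i j * y j| := Finset.abs_sum_le_sum_abs _ _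
    _ ≤ ∑ j, |R i j| * ‖y‖ := by
        refine Finset.sum_le_sum fun j _ => ?_
        rw [abs_mul]
        exact mul_le_mul_of_nonneg_left (norm_le_pi_norm y j) (abs_nonneg _)
    _ = (∑ j, |R i j|) * ‖y‖ := by rw [Finset.sum_mul]
    _ ≤ K * ‖y‖ := mul_le_mul_of_nonneg_right (hK i) (norm_nonneg _)

theorem lin_sub {n m : ℕ} (R : Fin n → Fin m → ℝ) (y z : Fin m → ℝ) (i : Fin n) :
    lin R (y - z) i = lin R y i - lin R z i := by
  unfold lin
  rw [← Finset.sum_sub_distrib]
  exact Finset.sum_congr rfl fun j _ => by simp [mul_sub]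

theorem exists_zero {n m : ℕ} (s : Fin m → Fin 3 → ℝ) (a b : Fin m → Fin 3 → Fin n)
    (hs : ∀ e k, |s e k| ≤ 1) (x0 : Fin n → ℝ) (R : Fin n → Fin m → ℝ) (K η δ r : ℝ)
    (hK : ∀ i, ∑ j, |R i j| ≤ K) (hK0 : 0 ≤ K)
    (hη : ∀ e, ∑ j, |(∑ k, s e k * (x0 (a e k) * R (b e k) j + R (a e k) j * x0 (b e k))) -
      (if e = j then 1 else 0)| ≤ η)
    (hr : ∀ e, |(∑ k, s e k * (x0 (a e k) * x0 (b e k))) - 1| ≤ r)
    (hδ : 0 ≤ δ) (hη0 : 0 ≤ η) (hc : η + 6 * K ^ 2 * δ < 1)
    (hrδ : r ≤ (1 - (η + 6 * K ^ 2 * δ)) * δ) :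
    ∃ x : Fin n → ℝ, (∀ i, |x i - x0 i| ≤ K * δ) ∧
      ∀ e, ∑ k, s e k * (x (a e k) * x (b e k)) = 1 := by
  classical
  set c : ℝ := η + 6 * K ^ 2 * δ with hcdef
  have hc0 : 0 ≤ c := by positivity
  let H : (Fin m → ℝ) → (Fin m → ℝ) := fun y e =>
    (∑ k, s e k * ((x0 (a e k) + lin R y (a e k)) * (x0 (b e k) + lin R y (b e k)))) - 1
  have key : ∀ y z : Fin m → ℝ, ‖y‖ ≤ δ → ‖z‖ ≤ δ → ‖H y - H z - (y - z)‖ ≤ c * ‖y - z‖ := by
    intro y z hy hz
    refine (pi_norm_le_iff_of_nonneg (by positivity)).2 fun e => ?_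
    have e1 : (H y - H z - (y - z)) e =
        (∑ j, ((∑ k, s e k * (x0 (a e k) * R (b e k) j + R (a e k) j * x0 (b e k))) -
          (if e = j then 1 else 0)) * (y - z) j) +
        ∑ k, s e k * (lin R y (a e k) * lin R (y - z) (b e k) +
          lin R (y - z) (a e k) * lin R z (b e k)) := by
      have l1 : ∑ j, ((∑ k, s e k * (x0 (a e k) * R (b e k) j + R (a e k) j * x0 (b e k))) -
          (if e = j then (1 : ℝ) else 0)) * (y - z) j =
          (∑ k, s e k * (x0 (a e k) * lin R (y - z) (b e k) + lin R (y - z) (a e k) * x0 (b e k)))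
            - (y - z) e := by
        simp_rw [sub_mul]
        rw [Finset.sum_sub_distrib]
        congr 1
        · simp_rw [Finset.sum_mul]
          rw [Finset.sum_comm]
          refine Finset.sum_congr rfl fun k _ => ?_
          unfold lin
          rw [Finset.mul_sum, Finset.sum_mul, ← Finset.sum_add_distrib, Finset.mul_sum]
          refine Finset.sum_congr rfl fun j _ => ?_
          ring
        · simp
      rw [l1]
      simp only [H, Pi.sub_apply]
      have l2 : ∀ i, lin R (y - z) i = lin R y i - lin R z i := lin_sub R y z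
      have l3 : (∑ k, s e k * ((x0 (a e k) + lin R y (a e k)) * (x0 (b e k) + lin R y (b e k)))) -
          (∑ k, s e k * ((x0 (a e k) + lin R z (a e k)) * (x0 (b e k) + lin R z (b e k)))) =
          (∑ k, s e k * (x0 (a e k) * lin R (y - z) (b e k) + lin R (y - z) (a e k) * x0 (b e k))) +
          ∑ k, s e k * (lin R y (a e k) * lin R (y - z) (b e k) +
          lin R (y - z) (a e k) * lin R z (b e k)) := by
        rw [← Finset.sum_sub_distrib, ← Finset.sum_add_distrib]
        refine Finset.sum_congr rfl fun k _ => ?_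
        rw [l2, l2]
        ring
      linarith [l3]
    rw [e1, Real.norm_eq_abs]
    have b1 : |∑ j, ((∑ k, s e k * (x0 (a e k) * R (b e k) j + R (a e k) j * x0 (b e k))) -
          (if e = j then (1 : ℝ) else 0)) * (y - z) j| ≤ η * ‖y - z‖ := by
      calc _ ≤ ∑ j, |((∑ k, s e k * (x0 (a e k) * R (b e k) j + R (a e k) j * x0 (b e k))) -
          (if e = j then (1 : ℝ) else 0)) * (y - z) j| := Finset.abs_sum_le_sum_abs _ _
        _ ≤ ∑ j, |((∑ k, s e k * (x0 (a e k) * R (b e k) j + R (a e k) j * x0 (b e k))) -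
          (if e = j then (1 : ℝ) else 0))| * ‖y - z‖ := by
            refine Finset.sum_le_sum fun j _ => ?_
            rw [abs_mul]
            exact mul_le_mul_of_nonneg_left (norm_le_pi_norm (y - z) j) (abs_nonneg _)
        _ = (∑ j, |((∑ k, s e k * (x0 (a e k) * R (b e k) j + R (a e k) j * x0 (b e k))) -
          (if e = j then (1 : ℝ) else 0))|) * ‖y - z‖ := by rw [Finset.sum_mul]
        _ ≤ η * ‖y - z‖ := mul_le_mul_of_nonneg_right (hη e) (norm_nonneg _)
    have b2 : |∑ k, s e k * (lin R y (a e k) * lin R (y - z) (b e k) +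
          lin R (y - z) (a e k) * lin R z (b e k))| ≤ 6 * K ^ 2 * δ * ‖y - z‖ := by
      calc _ ≤ ∑ k : Fin 3, |s e k * (lin R y (a e k) * lin R (y - z) (b e k) +
          lin R (y - z) (a e k) * lin R z (b e k))| := Finset.abs_sum_le_sum_abs _ _
        _ ≤ ∑ _k : Fin 3, 2 * K ^ 2 * δ * ‖y - z‖ := by
            refine Finset.sum_le_sum fun k _ => ?_
            rw [abs_mul]
            have h1 := lin_bound hK y (a e k)
            have h2 := lin_bound hK (y - z) (b e k)
            have h3 := lin_bound hK (y - z) (a e k)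
            have h4 := lin_bound hK z (b e k)
            have h1' : |lin R y (a e k)| ≤ K * δ := h1.trans (mul_le_mul_of_nonneg_left hy hK0)
            have h4' : |lin R z (b e k)| ≤ K * δ := h4.trans (mul_le_mul_of_nonneg_left hz hK0)
            have p1 : |lin R y (a e k) * lin R (y - z) (b e k)| ≤ (K * δ) * (K * ‖y - z‖) := by
              rw [abs_mul]
              exact mul_le_mul h1' h2 (abs_nonneg _) (by positivity)
            have p2 : |lin R (y - z) (a e k) * lin R z (b e k)| ≤ (K * ‖y - z‖) * (K * δ) := by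
              rw [abs_mul]
              exact mul_le_mul h3 h4' (abs_nonneg _) (by positivity)
            have p3 : |lin R y (a e k) * lin R (y - z) (b e k) +
                lin R (y - z) (a e k) * lin R z (b e k)| ≤ 2 * K ^ 2 * δ * ‖y - z‖ := by
              refine (abs_add_le _ _).trans ?_
              nlinarith [p1, p2]
            calc |s e k| * _ ≤ 1 * (2 * K ^ 2 * δ * ‖y - z‖) :=
                  mul_le_mul (hs e k) p3 (abs_nonneg _) zero_le_one
              _ = _ := one_mul _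
        _ = 6 * K ^ 2 * δ * ‖y - z‖ := by
            simp
            ring
    calc _ ≤ _ := abs_add_le _ _
      _ ≤ η * ‖y - z‖ + 6 * K ^ 2 * δ * ‖y - z‖ := add_le_add b1 b2
      _ = c * ‖y - z‖ := by rw [hcdef]; ring
  have hA : ApproximatesLinearOn H (ContinuousLinearMap.id ℝ (Fin m → ℝ))
      (Metric.closedBall (0 : Fin m → ℝ) δ) ⟨c, hc0⟩ := by
    intro y hy z hz
    have hy' : ‖y‖ ≤ δ := by simpa using hy
    have hz' : ‖z‖ ≤ δ := by simpa using hz
    exact key y z hy' hz'
  let rinv : (ContinuousLinearMap.id ℝ (Fin m → ℝ)).NonlinearRightInverse :=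
    { toFun := fun y => y
      nnnorm := 1
      bound' := fun y => by simp
      right_inv' := fun y => rfl }
  have hsurj := hA.surjOn_closedBall_of_nonlinearRightInverse rinv (b := 0) hδ (subset_refl _)
  have h0 : (0 : Fin m → ℝ) ∈ Metric.closedBall (H 0) ((((rinv.nnnorm : NNReal) : ℝ)⁻¹ -
      ((⟨c, hc0⟩ : NNReal) : ℝ)) * δ) := by
    have : ((rinv.nnnorm : NNReal) : ℝ) = 1 := rfl
    rw [this, Metric.mem_closedBall, dist_comm, dist_zero_right, inv_one]
    have hnn : 0 ≤ (1 - c) * δ := mul_nonneg (by linarith) hδ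
    refine (pi_norm_le_iff_of_nonneg hnn).2 fun e => ?_
    have l0 : ∀ i, lin R (0 : Fin m → ℝ) i = 0 := by
      intro i
      simp [lin]
    have : H 0 e = (∑ k, s e k * (x0 (a e k) * x0 (b e k))) - 1 := by
      simp only [H, l0, add_zero]
    rw [this, Real.norm_eq_abs]
    exact (hr e).trans hrδ
  obtain ⟨y, hy, hHy⟩ := hsurj h0
  have hy' : ‖y‖ ≤ δ := by simpa using hy
  refine ⟨fun i => x0 i + lin R y i, fun i => ?_, fun e => ?_⟩
  · have := lin_bound hK y i
    have h2 : K * ‖y‖ ≤ K * δ := mul_le_mul_of_nonneg_left hy' hK0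
    simpa using this.trans h2
  · have := congrFun hHy e
    simp only [H, Pi.zero_apply] at this
    linarith

end Pool.Agent.Helper874.Pent
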