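import Pool.Agent.Helper874.Pent.Check

set_option autoImplicit false

namespace Pool.Agent.Helper874.Pent

def ids (F : List Pt) : List (Fin 48) := F.map Prod.fst

/-- The union of the three triangles of the fan of a pentagon at its first vertex. -/
noncomputable def reg (P : Fin 48 → V3) : List (Fin 48) → Set V3
  | [a, b, c, d, e] => convexHull ℝ {P a, P b, P c} ∪
      (convexHull ℝ {P a, P c, P d} ∪ convexHull ℝ {P a, P d, P e})
  | _ => ∅

def tris : List Pt → List (List Pt)
  | [a, b, c, d, e] => [[a, b, c], [a, c, d], [a, d, e]]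
  | _ => []

def edgs : List Pt → List (Pt × Pt × Pt)
  | [a, b, c] => [(a, b, c), (b, c, a), (c, a, b)]
  | _ => []

def nxt (l : List (Fin 48)) (a b : Fin 48) : Bool := (l.zip (l.rotate 1)).contains (a, b)

def edgeOK (F G T T' : List Pt) : Bool :=
  (edgs T).any fun u => (edgs T').any fun v =>
    (u.1.1 == v.2.1.1) && (u.2.1.1 == v.1.1) && nxt (ids F) u.1.1 u.2.1.1 &&
      nxt (ids G) u.2.1.1 u.1.1 && detOK u.1 u.2.1 u.2.2 v.2.2

def all9 (F G : List Pt) : List (List Pt × List Pt) → List Z3 → Bool
  | [], [] => true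
  | t :: r, l :: ls => (sepOK l t.1 t.2 || edgeOK F G t.1 t.2) && all9 F G r ls
  | _, _ => false

def pairOK (F G : List Pt) : List Z3 → Bool
  | [l] => sepOK l F G
  | c => all9 F G ((tris F).flatMap fun T => (tris G).map fun T' => (T, T')) c

theorem tri_set (P : Fin 48 → V3) (a b c : Fin 48) :
    P '' {v | v ∈ [a, b, c]} = {P a, P b, P c} := by
  ext x
  simp only [Set.mem_image, Set.mem_setOf_eq, List.mem_cons, List.not_mem_nil, or_false,
    Set.mem_insert_iff, Set.mem_singleton_iff]
  constructor
  · rintro ⟨v, rfl | rfl | rfl, rfl⟩ <;> simp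
  · rintro (rfl | rfl | rfl)
    · exact ⟨a, by simp, rfl⟩
    · exact ⟨b, by simp, rfl⟩
    · exact ⟨c, by simp, rfl⟩

theorem mem_tris {P : Fin 48 → V3} {F : List Pt} {x : V3} (hx : x ∈ reg P (ids F)) :
    ∃ T ∈ tris F, x ∈ convexHull ℝ (P '' {v | v ∈ ids T}) := by
  rcases F with _ | ⟨a, _ | ⟨b, _ | ⟨c, _ | ⟨d, _ | ⟨e, _ | ⟨f, F⟩⟩⟩⟩⟩⟩ <;>
    simp only [ids, List.map_cons, List.map_nil, reg, Set.mem_empty_iff_false] at hx
  rcases hx with hx | hx | hx
  · exact ⟨[a, b, c], by simp [tris], by simpa only [ids, List.map_cons, List.map_nil, tri_set]⟩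
  · exact ⟨[a, c, d], by simp [tris], by simpa only [ids, List.map_cons, List.map_nil, tri_set]⟩
  · exact ⟨[a, d, e], by simp [tris], by simpa only [ids, List.map_cons, List.map_nil, tri_set]⟩

theorem tris_sub {F T : List Pt} (hT : T ∈ tris F) : ∀ p ∈ T, p ∈ F := by
  rcases F with _ | ⟨a, _ | ⟨b, _ | ⟨c, _ | ⟨d, _ | ⟨e, _ | ⟨f, F⟩⟩⟩⟩⟩⟩ <;>
    simp only [tris, List.not_mem_nil, List.mem_cons, or_false] at hT
  rcases hT with rfl | rfl | rfl <;> intro p hp <;> simp only [List.mem_cons, List.not_mem_nil,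
    or_false] at hp ⊢ <;> tauto

theorem all9_sound {F G : List Pt} : ∀ {L : List (List Pt × List Pt)} {c : List Z3},
    all9 F G L c = true → ∀ t ∈ L, (∃ l, sepOK l t.1 t.2 = true) ∨ edgeOK F G t.1 t.2 = true := by
  intro L
  induction L with
  | nil => intro c _ t ht; simp at ht
  | cons s L ih =>
    intro c h t ht
    rcases c with _ | ⟨l, c⟩
    · simp [all9] at h
    · simp only [all9, Bool.and_eq_true, Bool.or_eq_true] at h
      rcases List.mem_cons.1 ht with rfl | ht
      · rcases h.1 with h1 | h1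
        · exact Or.inl ⟨l, h1⟩
        · exact Or.inr h1
      · exact ih h.2 t ht

theorem edgs_hull {P : Fin 48 → V3} {T : List Pt} {u : Pt × Pt × Pt} (hu : u ∈ edgs T) :
    P '' {v | v ∈ ids T} = {P u.1.1, P u.2.1.1, P u.2.2.1} ∧ u.1 ∈ T ∧ u.2.1 ∈ T ∧ u.2.2 ∈ T := by
  rcases T with _ | ⟨a, _ | ⟨b, _ | ⟨c, _ | ⟨d, F⟩⟩⟩⟩ <;>
    simp only [edgs, List.not_mem_nil, List.mem_cons, or_false] at hu
  rcases hu with rfl | rfl | rfl <;>
    refine ⟨?_, by simp, by simp, by simp⟩ <;>
    simp only [ids, List.map_cons, List.map_nil, tri_set] <;>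
    ext x <;> simp only [Set.mem_insert_iff, Set.mem_singleton_iff] <;> tauto

theorem det3_eq (p q r y : V3) : dotf (cx p q r) (cy p q r) (cz p q r) y -
    dotf (cx p q r) (cy p q r) (cz p q r) p = det3 p q r y := by
  simp only [dotf_apply, cx, cy, cz, det3]
  ring

theorem det3_self1 (p q r : V3) : det3 p q r q = 0 := by
  simp only [det3]; ring

theorem det3_self2 (p q r : V3) : det3 p q r r = 0 := by
  simp only [det3]; ring

/-- Two triangles with a common side that are not coplanar meet only in that side. -/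
theorem triangle_inter_of_det {s t c c' x : V3} (h : det3 s t c c' ≠ 0)
    (hx : x ∈ convexHull ℝ {s, t, c}) (hx' : x ∈ convexHull ℝ {s, t, c'}) :
    x ∈ segment ℝ s t := by
  set φ := dotf (cx s t c) (cy s t c) (cz s t c) with hφ
  have e : ∀ y, φ y - φ s = det3 s t c y := fun y => det3_eq s t c y
  have e1 : φ t = φ s := by linarith [e t, det3_self1 s t c]
  have e2 : φ c = φ s := by linarith [e c, det3_self2 s t c]
  have e3 := e c'
  rcases lt_or_gt_of_ne h with h1 | h1
  · refine triangle_inter_side (-φ) (-φ s) (by simp) (by simp [e1]) (by simp [e2]) ?_ hx hx'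
    simp only [LinearMap.neg_apply]
    linarith
  · refine triangle_inter_side φ (φ s) rfl e1 e2.le ?_ hx hx'
    linarith

theorem contains_iff {l : List (Fin 48)} {a b : Fin 48} (h : nxt l a b = true) :
    (a, b) ∈ l.zip (l.rotate 1) := by
  unfold nxt at h
  simpa using h

theorem edgeOK_sound {P : Fin 48 → V3} {F G T T' : List Pt} (h : edgeOK F G T T' = true)
    (hT : ∀ p ∈ T, Near P p) (hT' : ∀ p ∈ T', Near P p) {x : V3}
    (hx : x ∈ convexHull ℝ (P '' {v | v ∈ ids T}))
    (hx' : x ∈ convexHull ℝ (P '' {v | v ∈ ids T'})) :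
    ∃ s t, (s, t) ∈ (ids F).zip ((ids F).rotate 1) ∧ (t, s) ∈ (ids G).zip ((ids G).rotate 1) ∧
      x ∈ segment ℝ (P s) (P t) := by
  unfold edgeOK at h
  rw [List.any_eq_true] at h
  obtain ⟨u, hu, h⟩ := h
  rw [List.any_eq_true] at h
  obtain ⟨v, hv, h⟩ := h
  simp only [Bool.and_eq_true, beq_iff_eq] at h
  obtain ⟨⟨⟨⟨h1, h2⟩, h3⟩, h4⟩, h5⟩ := h
  obtain ⟨e1, a1, a2, a3⟩ := edgs_hull (P := P) hu
  obtain ⟨e2, b1, b2, b3⟩ := edgs_hull (P := P) hv
  refine ⟨u.1.1, u.2.1.1, contains_iff h3, contains_iff h4, ?_⟩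
  have hd := detOK_sound h5 (hT _ a1) (hT _ a2) (hT _ a3) (hT' _ b3)
  rw [e1] at hx
  rw [e2, ← h1, ← h2, Set.insert_comm] at hx'
  exact triangle_inter_of_det hd hx hx'

theorem reg_sub {P : Fin 48 → V3} {F : List Pt} {x : V3} (hx : x ∈ reg P (ids F)) :
    x ∈ convexHull ℝ (P '' {v | v ∈ ids F}) := by
  obtain ⟨T, hT, h⟩ := mem_tris hx
  refine convexHull_mono (Set.image_mono ?_) h
  intro v hv
  obtain ⟨p, hp, rfl⟩ := List.mem_map.1 hv
  exact List.mem_map.2 ⟨p, tris_sub hT p hp, rfl⟩

theorem pair_sound {P : Fin 48 → V3} {F G : List Pt} {c : List Z3} (h : pairOK F G c = true)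
    (hF : ∀ p ∈ F, Near P p) (hG : ∀ p ∈ G, Near P p) {x : V3}
    (hx : x ∈ reg P (ids F)) (hx' : x ∈ reg P (ids G)) :
    (∃ v, v ∈ ids F ∧ v ∈ ids G ∧ x = P v) ∨
    (∃ s t, (s, t) ∈ (ids F).zip ((ids F).rotate 1) ∧
      (t, s) ∈ (ids G).zip ((ids G).rotate 1) ∧ x ∈ segment ℝ (P s) (P t)) := by
  have main : ∀ c', all9 F G ((tris F).flatMap fun T => (tris G).map fun T' => (T, T')) c' = true →
      (∃ v, v ∈ ids F ∧ v ∈ ids G ∧ x = P v) ∨
      (∃ s t, (s, t) ∈ (ids F).zip ((ids F).rotate 1) ∧
      (t, s) ∈ (ids G).zip ((ids G).rotate 1) ∧ x ∈ segment ℝ (P s) (P t)) := by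
    intro c' h
    obtain ⟨T, hT, hxT⟩ := mem_tris hx
    obtain ⟨T', hT', hxT'⟩ := mem_tris hx'
    have hmem : (T, T') ∈ (tris F).flatMap fun T => (tris G).map fun T' => (T, T') :=
      List.mem_flatMap.2 ⟨T, hT, List.mem_map.2 ⟨T', hT', rfl⟩⟩
    have nT : ∀ p ∈ T, Near P p := fun p hp => hF p (tris_sub hT p hp)
    have nT' : ∀ p ∈ T', Near P p := fun p hp => hG p (tris_sub hT' p hp)
    rcases all9_sound h _ hmem with ⟨l, hl⟩ | he
    · left
      obtain ⟨v, h1, h2, h3⟩ := sep_meet hl nT nT' hxT hxT'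
      obtain ⟨p, hp, rfl⟩ := List.mem_map.1 h1
      obtain ⟨q, hq, hq2⟩ := List.mem_map.1 h2
      exact ⟨p.1, List.mem_map.2 ⟨p, tris_sub hT p hp, rfl⟩,
        List.mem_map.2 ⟨q, tris_sub hT' q hq, hq2⟩, h3⟩
    · right
      exact edgeOK_sound he nT nT' hxT hxT'
  rcases c with _ | ⟨l, _ | ⟨l2, c⟩⟩
  · exact main _ h
  · left
    exact sep_meet h hF hG (reg_sub hx) (reg_sub hx')
  · exact main _ h

/-! ### Checks inside a face -/

def faceOK (F : List Pt) (w l : Z3) : Bool :=
  match F with
  | [a, b, c, d, e] => dpos w a b c && dpos w a c d && dpos w a d e && dne w a e b &&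
      dne w c b d && dne w d c e && sepOK l [a, b, c] [a, d, e]
  | _ => false

theorem dreal_swap (w : Z3) (p q r : V3) : dreal w p r q = - dreal w p q r := by
  simp only [dreal, cx, cy, cz]; ring

theorem triangle_inter_of_dreal {w : Z3} {a b c d x : V3} (h1 : 0 < dreal w a b c)
    (h2 : 0 < dreal w a c d) (hx : x ∈ convexHull ℝ {a, b, c}) (hx' : x ∈ convexHull ℝ {a, c, d}) :
    x ∈ segment ℝ a c := by
  set φ := dotf (w.2.1 * (c 2 - a 2) - w.2.2 * (c 1 - a 1)) (w.2.2 * (c 0 - a 0) - w.1 * (c 2 - a 2))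
    (w.1 * (c 1 - a 1) - w.2.1 * (c 0 - a 0)) with hφ
  have e : ∀ y, φ y - φ a = dreal w a c y := by
    intro y
    simp only [hφ, dotf_apply, dreal, cx, cy, cz]
    ring
  have e1 : φ c = φ a := by
    have : dreal w a c c = 0 := by simp only [dreal, cx, cy, cz]; ring
    linarith [e c]
  refine triangle_inter_side (s := a) (t := c) (c := b) (c' := d) φ (φ a) rfl e1 ?_ ?_ ?_ hx'
  · have := dreal_swap w a b c
    linarith [e b]
  · linarith [e d]
  · have : ({a, b, c} : Set V3) = {a, c, b} := by
      ext y; simp only [Set.mem_insert_iff, Set.mem_singleton_iff]; tauto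
    rwa [this] at hx

/-- All the facts about a face that passes `faceOK`. -/
theorem face_sound {P : Fin 48 → V3} {F : List Pt} {w l : Z3} (h : faceOK F w l = true)
    (hF : ∀ p ∈ F, Near P p) : ∃ a b c d e : Fin 48, ids F = [a, b, c, d, e] ∧
      ¬ Collinear ℝ {P a, P b, P c} ∧ ¬ Collinear ℝ {P a, P c, P d} ∧
      ¬ Collinear ℝ {P a, P d, P e} ∧ ¬ Collinear ℝ {P e, P a, P b} ∧
      ¬ Collinear ℝ {P b, P c, P d} ∧ ¬ Collinear ℝ {P c, P d, P e} ∧
      ¬ Collinear ℝ {P d, P e, P a} ∧
      convexHull ℝ {P a, P c, P d} ∩ convexHull ℝ {P a, P d, P e} = segment ℝ (P a) (P d) ∧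
      convexHull ℝ {P a, P b, P c} ∩ (convexHull ℝ {P a, P c, P d} ∪
        convexHull ℝ {P a, P d, P e}) = segment ℝ (P a) (P c) := by
  rcases F with _ | ⟨a, _ | ⟨b, _ | ⟨c, _ | ⟨d, _ | ⟨e, _ | ⟨f, F⟩⟩⟩⟩⟩⟩ <;>
    simp only [faceOK, Bool.false_eq_true, Bool.and_eq_true] at h
  obtain ⟨⟨⟨⟨⟨⟨h1, h2⟩, h3⟩, h4⟩, h5⟩, h6⟩, h7⟩ := h
  have na := hF a (by simp)
  have nb := hF b (by simp)
  have nc := hF c (by simp)
  have nd := hF d (by simp)
  have ne := hF e (by simp)
  have k1 := dpos_sound h1 na nb nc
  have k2 := dpos_sound h2 na nc nd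
  have k3 := dpos_sound h3 na nd ne
  have k4 := dne_sound h4 na ne nb
  have k5 := dne_sound h5 nc nb nd
  have k6 := dne_sound h6 nd nc ne
  have perm1 : ∀ x y z : V3, ({x, y, z} : Set V3) = {y, x, z} := fun x y z => Set.insert_comm x y {z}
  have perm2 : ∀ x y z : V3, ({x, y, z} : Set V3) = {x, z, y} := fun x y z => by
    rw [Set.pair_comm y z]
  refine ⟨a.1, b.1, c.1, d.1, e.1, rfl, dreal_not_collinear k1.ne', dreal_not_collinear k2.ne',
    dreal_not_collinear k3.ne', ?_, ?_, ?_, ?_, ?_, ?_⟩
  · rw [perm1]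
    exact dreal_not_collinear k4
  · rw [perm1]
    exact dreal_not_collinear k5
  · rw [perm1]
    exact dreal_not_collinear k6
  · have := dreal_not_collinear k3.ne'
    rwa [perm1, perm2] at this
  · apply Set.Subset.antisymm
    · rintro x ⟨hx, hx'⟩
      exact triangle_inter_of_dreal k2 k3 hx hx'
    · apply Set.subset_inter
      · rw [← convexHull_pair]
        exact convexHull_mono (by intro y; simp only [Set.mem_insert_iff, Set.mem_singleton_iff]; tauto)
      · rw [← convexHull_pair]
        exact convexHull_mono (by intro y; simp only [Set.mem_insert_iff, Set.mem_singleton_iff]; tauto)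
  · apply Set.Subset.antisymm
    · rintro x ⟨hx, hx' | hx'⟩
      · exact triangle_inter_of_dreal k1 k2 hx hx'
      · have s1 : ∀ p ∈ [a, b, c], Near P p := by
          intro p hp
          simp only [List.mem_cons, List.not_mem_nil, or_false] at hp
          rcases hp with rfl | rfl | rfl <;> assumption
        have s2 : ∀ p ∈ [a, d, e], Near P p := by
          intro p hp
          simp only [List.mem_cons, List.not_mem_nil, or_false] at hp
          rcases hp with rfl | rfl | rfl <;> assumption
        obtain ⟨v, hv1, hv2, hv3⟩ := sep_meet (P := P) h7 s1 s2 (x := x)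
          (by simpa only [List.map_cons, List.map_nil, tri_set])
          (by simpa only [List.map_cons, List.map_nil, tri_set])
        simp only [List.map_cons, List.map_nil, List.mem_cons, List.not_mem_nil, or_false] at hv1 hv2
        have key : x = P a.1 := by
          rcases hv1 with rfl | rfl | rfl
          · exact hv3
          · -- `v = b`
            exfalso
            rcases hv2 with e1 | e1 | e1
            · apply dreal_not_collinear k1.ne'
              rw [e1]; simp [collinear_pair]
            · rcases sepOK_sound h7 s1 s2 b (by simp) d (by simp) with e2 | e2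
              · rcases sepOK_sound h7 s1 s2 b (by simp) a (by simp) with e3 | e3
                · apply dreal_not_collinear k1.ne'
                  rw [e3]; simp [collinear_pair]
                · rcases sepOK_sound h7 s1 s2 a (by simp) d (by simp) with e4 | e4
                  · apply dreal_not_collinear k2.ne'
                    rw [e4]; simp [collinear_pair, Set.pair_comm]
                  · rw [e1] at e3
                    exact lt_asymm e3 e4
              · rw [e1] at e2
                exact lt_irrefl _ e2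
            · rcases sepOK_sound h7 s1 s2 b (by simp) a (by simp) with e3 | e3
              · apply dreal_not_collinear k1.ne'
                rw [e3]; simp [collinear_pair]
              · rcases sepOK_sound h7 s1 s2 a (by simp) e (by simp) with e4 | e4
                · apply dreal_not_collinear k3.ne'
                  rw [e4]; simp [collinear_pair, Set.pair_comm]
                · rw [e1] at e3
                  exact lt_asymm e3 e4
          · -- `v = c`
            exfalso
            rcases sepOK_sound h7 s1 s2 c (by simp) a (by simp) with e3 | e3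
            · apply dreal_not_collinear k2.ne'
              rw [e3]; simp [collinear_pair]
            · rcases hv2 with e1 | e1 | e1
              · rw [e1] at e3
                exact lt_irrefl _ e3
              · rcases sepOK_sound h7 s1 s2 a (by simp) d (by simp) with e4 | e4
                · apply dreal_not_collinear k3.ne'
                  rw [e4]; simp [collinear_pair]
                · rw [e1] at e3
                  exact lt_asymm e3 e4
              · rcases sepOK_sound h7 s1 s2 a (by simp) e (by simp) with e4 | e4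
                · apply dreal_not_collinear k3.ne'
                  rw [e4]; simp [collinear_pair, Set.pair_comm]
                · rw [e1] at e3
                  exact lt_asymm e3 e4
        rw [key]
        exact left_mem_segment ℝ _ _
    · apply Set.subset_inter
      · rw [← convexHull_pair]
        exact convexHull_mono (by intro y; simp only [Set.mem_insert_iff, Set.mem_singleton_iff]; tauto)
      · refine Set.Subset.trans ?_ Set.subset_union_left
        rw [← convexHull_pair]
        exact convexHull_mono (by intro y; simp only [Set.mem_insert_iff, Set.mem_singleton_iff]; tauto)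

end Pool.Agent.Helper874.Pent
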